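import Pool.Agent.R414.DN.Br
import Pool.Agent.R414.DS.Exp2

set_option autoImplicit false
set_option linter.unusedSectionVars false

/-! Integer points are attached to the real asymptotes, sharper form. -/

open Finset

namespace Pool.Agent.R414.DS

open Pool.Agent.R414.DN

/-- first genericity condition -/
def GA (c : ℕ → ℕ → ℤ) (d : ℕ) (H w : ℝ) : Prop :=
  ∀ t : ℝ, |t| ≤ 2 → H / w ^ 2 ≤ |TT c d 0 t| ∨ H / w ≤ |TT c d 1 t|

/-- second genericity condition -/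
def GB (c : ℕ → ℕ → ℤ) (d : ℕ) (g : ℝ) : Prop :=
  ∀ α : ℝ, |α| ≤ 2 → TT c d 0 α = 0 → TT c d 1 α ≠ 0 → g ≤ |TT c d 1 α * gam c d α|

/-- existence of the asymptote -/
lemma exists_rootA {c : ℕ → ℕ → ℤ} {d : ℕ} (hd : 1 ≤ d) {H w : ℝ} (hc : ∀ k i, |(c k i : ℝ)| ≤ H)
    (hH : 1 ≤ H) (hw : 1 ≤ w) (hG : GA c d H w) {x y : ℤ} (hxy : |x| ≤ |y|)
    (hyY : 4 * d ^ 2 * c1 d ^ 2 * w ^ 2 ≤ |(y : ℝ)|) (h0 : Fv c d x y = 0) :
    ∃ α : ℝ, |α| ≤ 2 ∧ TT c d 0 α = 0 ∧ H / (2 * w) ≤ |TT c d 1 α| ∧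
      |(x : ℝ) - α * y| ≤ 2 * d * c1 d * w := by
  have hc1 := c1_pos d
  have hd1 : (1 : ℝ) ≤ d := by exact_mod_cast hd
  have hbig : 4 * d * c1 d * w ^ 2 ≤ 4 * d ^ 2 * c1 d ^ 2 * w ^ 2 := by
    have e1 : (d : ℝ) ≤ d ^ 2 := by nlinarith
    have e2 : c1 d ≤ c1 d ^ 2 := by nlinarith
    gcongr
  have hy1 : 4 ≤ |(y : ℝ)| := by
    have : 4 * 1 * 1 * (1 : ℝ) ^ 2 ≤ 4 * d * c1 d * w ^ 2 := by gcongr
    linarith
  have hy0 : 0 < |(y : ℝ)| := by linarith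
  have hyne : y ≠ 0 := by
    rintro rfl
    simp at hy0
  have hy' : (y : ℝ) ≠ 0 := by exact_mod_cast hyne
  set t : ℝ := (x : ℝ) / y with ht
  have ht1 : |t| ≤ 1 := by
    rw [ht, abs_div, div_le_one hy0, ← Int.cast_abs, ← Int.cast_abs]
    exact_mod_cast hxy
  have hs := lead_small hc hyne hxy h0
  rw [← ht] at hs
  have hHw : 0 < H / w := by positivity
  have hlt : |TT c d 0 t| < H / w ^ 2 := by
    refine lt_of_le_of_lt hs ?_
    rw [div_lt_div_iff₀ hy0 (by positivity)]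
    have e3 : 0 < d * c1 d * w ^ 2 := by positivity
    have e2 : d * c1 d * w ^ 2 < |(y : ℝ)| := by linarith
    calc d * c1 d * H * w ^ 2 = H * (d * c1 d * w ^ 2) := by ring
      _ < H * |(y : ℝ)| := by gcongr
  have hT1 : H / w ≤ |TT c d 1 t| := by
    rcases hG t (by linarith) with h | h
    · exact absurd h (not_le.2 hlt)
    · exact h
  set ρ : ℝ := 2 * |TT c d 0 t| * w / H with hρ
  have hρ0 : 0 ≤ ρ := by rw [hρ]; positivity
  have hρy : ρ * |(y : ℝ)| ≤ 2 * d * c1 d * w := by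
    have : |TT c d 0 t| * |(y : ℝ)| ≤ d * c1 d * H := by
      rw [le_div_iff₀ hy0] at hs
      exact hs
    rw [hρ]
    calc 2 * |TT c d 0 t| * w / H * |(y : ℝ)| = 2 * w / H * (|TT c d 0 t| * |(y : ℝ)|) := by ring
      _ ≤ 2 * w / H * (d * c1 d * H) := by gcongr
      _ = _ := by field_simp
  have hρw : d * c1 d * ρ ≤ 1 / (2 * w) := by
    rw [le_div_iff₀ (by positivity)]
    have e1 : d * c1 d * ρ * (2 * w) * |(y : ℝ)| ≤ 1 * |(y : ℝ)| := by
      calc d * c1 d * ρ * (2 * w) * |(y : ℝ)| = 2 * d * c1 d * w * (ρ * |(y : ℝ)|) := by ring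
        _ ≤ 2 * d * c1 d * w * (2 * d * c1 d * w) := by gcongr
        _ = 4 * d ^ 2 * c1 d ^ 2 * w ^ 2 := by ring
        _ ≤ _ := by linarith
    exact le_of_mul_le_mul_right e1 hy0
  have hρ1 : ρ ≤ 1 := by
    have e1 : 1 * 1 * ρ ≤ d * c1 d * ρ := by gcongr
    have e2 : 1 / (2 * w) ≤ 1 := by
      rw [div_le_one (by positivity)]
      linarith
    linarith
  -- values at `t + h`, `|h| = ρ`
  have hval : ∀ h : ℝ, |h| = ρ → |TT c d 0 (t + h) - (TT c d 0 t + TT c d 1 t * h)| ≤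
      (d * c1 d * ρ) * (H * ρ) := by
    intro h hh
    obtain ⟨e, rfl⟩ : ∃ e, d = e + 1 := ⟨d - 1, by omega⟩
    rw [TT_taylor c (le_refl (e + 1)) t h, sum_range_succ', sum_range_succ']
    simp only [pow_zero, mul_one, zero_add, pow_one]
    have : ∑ k ∈ range e, TT c (e + 1) (k + 1 + 1) t * h ^ (k + 1 + 1) + TT c (e + 1) 1 t * h +
        TT c (e + 1) 0 t - (TT c (e + 1) 0 t + TT c (e + 1) 1 t * h) =
        ∑ k ∈ range e, TT c (e + 1) (k + 1 + 1) t * h ^ (k + 1 + 1) := by ring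
    rw [this]
    calc |∑ k ∈ range e, TT c (e + 1) (k + 1 + 1) t * h ^ (k + 1 + 1)|
        ≤ ∑ k ∈ range e, |TT c (e + 1) (k + 1 + 1) t * h ^ (k + 1 + 1)| := abs_sum_le_sum_abs _ _
      _ ≤ ∑ _k ∈ range e, (c1 (e + 1) * H) * ρ ^ 2 := by
          apply sum_le_sum
          intro k _
          rw [abs_mul, abs_pow, hh]
          have h5 := TT_le hc (le_refl (e + 1)) (k + 1 + 1) (by linarith : |t| ≤ 2)
          have h6 : ρ ^ (k + 1 + 1) ≤ ρ ^ 2 := pow_le_pow_of_le_one hρ0 hρ1 (by omega)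
          have h7 : 0 ≤ c1 (e + 1) * H := by positivity
          gcongr
      _ = e * ((c1 (e + 1) * H) * ρ ^ 2) := by rw [sum_const, card_range, nsmul_eq_mul]
      _ ≤ ((e + 1 : ℕ) : ℝ) * ((c1 (e + 1) * H) * ρ ^ 2) := by
          gcongr
          omega
      _ = _ := by ring
  have habs2 : ∀ h : ℝ, |h| ≤ ρ → |t + h| ≤ 2 := by
    intro h hh
    calc |t + h| ≤ |t| + |h| := abs_add_le _ _
      _ ≤ 2 := by linarith
  have hmain : H * ρ / (2 * w) + |TT c d 0 t| ≤ |TT c d 1 t| * ρ := by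
    have e1 : |TT c d 0 t| = H * ρ / (2 * w) := by
      rw [hρ]; field_simp
    have e2 : H / w * ρ ≤ |TT c d 1 t| * ρ := by gcongr
    have e3 : H / w * ρ = H * ρ / (2 * w) + H * ρ / (2 * w) := by field_simp; ring
    linarith
  have herr : (d * c1 d * ρ) * (H * ρ) ≤ H * ρ / (2 * w) := by
    calc (d * c1 d * ρ) * (H * ρ) ≤ (1 / (2 * w)) * (H * ρ) := by gcongr
      _ = _ := by ring
  have hroot : ∃ α ∈ Set.Icc (t - ρ) (t + ρ), TT c d 0 α = 0 := by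
    have hp := abs_le.1 (hval ρ (abs_of_nonneg hρ0))
    have hm := abs_le.1 (hval (-ρ) (by rw [abs_neg]; exact abs_of_nonneg hρ0))
    have hf := abs_le.1 (le_refl |TT c d 0 t|)
    have hle : t - ρ ≤ t + ρ := by linarith
    rw [← sub_eq_add_neg] at hm
    rcases abs_cases (TT c d 1 t) with ⟨h1, _⟩ | ⟨h1, _⟩
    · rw [h1] at hmain
      have := intermediate_value_Icc hle (TT_cont c d 0).continuousOn
      obtain ⟨α, h2, h3⟩ := this (Set.mem_Icc.2 ⟨(by nlinarith : TT c d 0 (t - ρ) ≤ 0),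
        (by nlinarith : 0 ≤ TT c d 0 (t + ρ))⟩)
      exact ⟨α, h2, h3⟩
    · rw [h1] at hmain
      have := intermediate_value_Icc' hle (TT_cont c d 0).continuousOn
      obtain ⟨α, h2, h3⟩ := this (Set.mem_Icc.2 ⟨(by nlinarith : TT c d 0 (t + ρ) ≤ 0),
        (by nlinarith : 0 ≤ TT c d 0 (t - ρ))⟩)
      exact ⟨α, h2, h3⟩
  obtain ⟨α, hα, hα0⟩ := hroot
  have hαt : |α - t| ≤ ρ := by
    rw [abs_le]
    constructor <;> linarith [hα.1, hα.2]
  have hα2 : |α| ≤ 2 := by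
    have := habs2 (α - t) hαt
    rwa [add_sub_cancel] at this
  refine ⟨α, hα2, hα0, ?_, ?_⟩
  · have h1 := TT_lip hc (le_refl d) 1 hα2 (by linarith : |t| ≤ 2)
    have h2 : d * c1 d * H * |α - t| ≤ H / (2 * w) := by
      calc d * c1 d * H * |α - t| ≤ d * c1 d * H * ρ := by gcongr
        _ = H * (d * c1 d * ρ) := by ring
        _ ≤ H * (1 / (2 * w)) := by gcongr
        _ = _ := by ring
    have h3 : |TT c d 1 t| ≤ |TT c d 1 α| + |TT c d 1 α - TT c d 1 t| := by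
      have := abs_sub_abs_le_abs_sub (TT c d 1 t) (TT c d 1 α)
      rw [abs_sub_comm] at this
      linarith
    have h4 : H / w = H / (2 * w) + H / (2 * w) := by field_simp; ring
    linarith
  · have h1 : (x : ℝ) - α * y = (t - α) * y := by
      rw [ht]; field_simp
    rw [h1, abs_mul, abs_sub_comm]
    calc |α - t| * |(y : ℝ)| ≤ ρ * |(y : ℝ)| := by gcongr
      _ ≤ _ := hρy


/-- the size parameter -/
noncomputable def KN (d : ℕ) (w : ℝ) : ℝ := 2 * (d + 1) ^ 2 * c1 d * w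

variable {d : ℕ} {w : ℝ}

lemma KN_ge (hw : 1 ≤ w) : WW d w ≤ KN d w ∧ 2 * c1 d * w ≤ KN d w := by
  have h1 := c1_pos d
  have h2 : (0 : ℝ) ≤ d := Nat.cast_nonneg d
  unfold KN WW
  constructor
  · have : (d : ℝ) ≤ (d + 1) ^ 2 := by nlinarith
    gcongr
  · have : (1 : ℝ) ≤ (d + 1) ^ 2 := one_le_pow₀ (by linarith)
    calc 2 * c1 d * w = 2 * 1 * c1 d * w := by ring
      _ ≤ _ := by gcongr

lemma KN_one (hw : 1 ≤ w) : 1 ≤ KN d w := by
  have h1 := c1_pos d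
  refine le_trans ?_ (KN_ge (d := d) hw).2
  calc (1 : ℝ) ≤ 2 * 1 * 1 := by norm_num
    _ ≤ 2 * c1 d * w := by gcongr

/-- the expansion of an integer point at its asymptote -/
lemma attached7 {c : ℕ → ℕ → ℤ} (hd : 4 ≤ d) {H : ℝ} (hc : ∀ k i, |(c k i : ℝ)| ≤ H)
    (hH : 1 ≤ H) (hw : 1 ≤ w) {x y : ℤ} (hy : y ≠ 0) (h0 : Fv c d x y = 0) {α : ℝ}
    (hα : |α| ≤ 2) (hroot : TT c d 0 α = 0) (hD : H / (2 * w) ≤ |TT c d 1 α|)
    (hxα : |(x : ℝ) - α * y| ≤ WW d w) (hKy : KN d w ≤ |(y : ℝ)|) :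
    |(x : ℝ) - (α * y + bet c d α + gam c d α / y + del c d α / (y : ℝ) ^ 2)| ≤
      200 * KN d w ^ 7 / |(y : ℝ)| ^ 3 := by
  have hd1 : 1 ≤ d := by omega
  have hW := WW_ge hd1 hw
  obtain ⟨hWK, hcK⟩ := KN_ge (d := d) hw
  have hy' : (y : ℝ) ≠ 0 := by exact_mod_cast hy
  have hyp : 0 < |(y : ℝ)| := abs_pos.2 hy'
  obtain ⟨R, hR, hF⟩ := Fv_expand5 c hd hc hW x y hy (hWK.trans hKy) α ((x : ℝ) - α * y) hα hxα
    (by ring)
  rw [h0, hroot, Int.cast_zero] at hF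
  set D := TT c d 1 α with hDdef
  have hDp : 0 < |D| := lt_of_lt_of_le (by positivity) hD
  have hD0 : D ≠ 0 := abs_pos.1 hDp
  set u : ℝ := (x : ℝ) - α * y with hu
  set s : ℝ := 1 / (y : ℝ) with hs
  have hs0 : s ≠ 0 := one_div_ne_zero hy'
  have hs1 : KN d w * |s| ≤ 1 := by
    rw [hs, abs_div, abs_one, mul_one_div, div_le_one hyp]
    exact hKy
  have hq : ∀ k i, k ≤ d → |TT c k i α / D| ≤ KN d w := fun k i hk =>
    (quot_le hc hH hw hk i hα hD).trans hcK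
  have hK1 := KN_one (d := d) hw
  have hRD : |R / D| ≤ KN d w ^ 5 := by
    rw [abs_div, div_le_iff₀ hDp]
    refine hR.trans ?_
    have h1 := c1_pos d
    calc (d + 1) ^ 2 * (c1 d * H * WW d w ^ 4) ≤ (d + 1) ^ 2 * (c1 d * H * KN d w ^ 4) := by
          gcongr
      _ = KN d w ^ 5 * (H / (2 * w)) := by
          rw [pow_succ (KN d w) 4]
          have : KN d w * (H / (2 * w)) = (d + 1) ^ 2 * (c1 d * H) := by
            unfold KN
            field_simp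
          calc (d + 1 : ℝ) ^ 2 * (c1 d * H * KN d w ^ 4) = KN d w ^ 4 * ((d + 1) ^ 2 * (c1 d * H)) := by
                ring
            _ = KN d w ^ 4 * (KN d w * (H / (2 * w))) := by rw [this]
            _ = _ := by ring
      _ ≤ _ := by gcongr
  have heq : (u - bet c d α) + s * (TT c (d - 2) 0 α / D + TT c (d - 1) 1 α / D * u +
      TT c d 2 α / D * u ^ 2) + s ^ 2 * (TT c (d - 3) 0 α / D + TT c (d - 2) 1 α / D * u +
        TT c (d - 1) 2 α / D * u ^ 2 + TT c d 3 α / D * u ^ 3) + s ^ 3 * (R / D) = 0 := by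
    have h1 : s * (D * (u - bet c d α) + s * (TT c (d - 2) 0 α + TT c (d - 1) 1 α * u +
        TT c d 2 α * u ^ 2) + s ^ 2 * (TT c (d - 3) 0 α + TT c (d - 2) 1 α * u +
        TT c (d - 1) 2 α * u ^ 2 + TT c d 3 α * u ^ 3) + s ^ 3 * R) = 0 := by
      have h2 : D * bet c d α = -(TT c (d - 1) 0 α) := by
        unfold bet
        rw [← hDdef]
        field_simp
      have h3 := (mul_eq_zero.1 hF.symm).resolve_left (pow_ne_zero d hy')
      linear_combination h3 - s * h2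
    have h4 := (mul_eq_zero.1 h1).resolve_left hs0
    apply mul_left_cancel₀ hD0
    rw [mul_zero, ← h4]
    field_simp
  have key := core_expand7 hK1 ((bet_le hc hH hw hd1 hα hD).trans hcK)
    (hq (d - 2) 0 (Nat.sub_le _ _)) (hq (d - 1) 1 (Nat.sub_le _ _)) (hq d 2 le_rfl)
    (hq (d - 3) 0 (Nat.sub_le _ _)) (hq (d - 2) 1 (Nat.sub_le _ _)) (hq (d - 1) 2 (Nat.sub_le _ _))
    (hq d 3 le_rfl) (hxα.trans hWK) hs1 hRD heq
  have h5 : (x : ℝ) - (α * y + bet c d α + gam c d α / y + del c d α / (y : ℝ) ^ 2) =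
      u - bet c d α + (TT c (d - 2) 0 α / D + TT c (d - 1) 1 α / D * bet c d α +
      TT c d 2 α / D * bet c d α ^ 2) * s -
      (-((TT c (d - 1) 1 α / D + 2 * (TT c d 2 α / D) * bet c d α) *
        (-(TT c (d - 2) 0 α / D + TT c (d - 1) 1 α / D * bet c d α +
      TT c d 2 α / D * bet c d α ^ 2)) +
        (TT c (d - 3) 0 α / D + TT c (d - 2) 1 α / D * bet c d α +
        TT c (d - 1) 2 α / D * bet c d α ^ 2 + TT c d 3 α / D * bet c d α ^ 3))) * s ^ 2 := by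
    unfold gam del gam
    rw [← hDdef, hu, hs]
    ring
  rw [h5]
  refine key.trans (le_of_eq ?_)
  rw [hs, abs_div, abs_one, div_pow, one_pow]
  ring

lemma gam7_le {c : ℕ → ℕ → ℤ} {H : ℝ} (hc : ∀ k i, |(c k i : ℝ)| ≤ H) (hH : 1 ≤ H) (hw : 1 ≤ w)
    (hd : 1 ≤ d) {α : ℝ} (hα : |α| ≤ 2) (hD : H / (2 * w) ≤ |TT c d 1 α|) :
    |gam c d α| ≤ 3 * KN d w ^ 3 := by
  obtain ⟨hWK, hcK⟩ := KN_ge (d := d) hw
  have hK := KN_one (d := d) hw
  have hq : ∀ k i, k ≤ d → |TT c k i α / TT c d 1 α| ≤ KN d w := fun k i hk =>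
    (quot_le hc hH hw hk i hα hD).trans hcK
  have hb := (bet_le hc hH hw hd hα hD).trans hcK
  unfold gam
  rw [abs_neg]
  calc |TT c (d - 2) 0 α / TT c d 1 α + TT c (d - 1) 1 α / TT c d 1 α * bet c d α +
        TT c d 2 α / TT c d 1 α * bet c d α ^ 2|
      ≤ |TT c (d - 2) 0 α / TT c d 1 α| + |TT c (d - 1) 1 α / TT c d 1 α| * |bet c d α| +
        |TT c d 2 α / TT c d 1 α| * |bet c d α| ^ 2 := by
        refine (abs_add_le _ _).trans ?_
        rw [abs_mul (TT c d 2 α / TT c d 1 α), abs_pow]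
        gcongr
        refine (abs_add_le _ _).trans ?_
        rw [abs_mul]
    _ ≤ KN d w + KN d w * KN d w + KN d w * KN d w ^ 2 := by
        gcongr
        · exact hq _ _ (Nat.sub_le _ _)
        · exact hq _ _ (Nat.sub_le _ _)
        · exact hq _ _ le_rfl
    _ ≤ 3 * KN d w ^ 3 := by
        have e1 : KN d w ≤ KN d w ^ 3 := le_self_pow₀ hK (by norm_num)
        have e2 : KN d w ^ 2 ≤ KN d w ^ 3 := pow_le_pow_right₀ hK (by norm_num)
        nlinarith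

lemma del7_le {c : ℕ → ℕ → ℤ} {H : ℝ} (hc : ∀ k i, |(c k i : ℝ)| ≤ H) (hH : 1 ≤ H) (hw : 1 ≤ w)
    (hd : 1 ≤ d) {α : ℝ} (hα : |α| ≤ 2) (hD : H / (2 * w) ≤ |TT c d 1 α|) :
    |del c d α| ≤ 13 * KN d w ^ 5 := by
  obtain ⟨hWK, hcK⟩ := KN_ge (d := d) hw
  have hK := KN_one (d := d) hw
  have hK0 : 0 ≤ KN d w := by linarith
  have hq : ∀ k i, k ≤ d → |TT c k i α / TT c d 1 α| ≤ KN d w := fun k i hk =>
    (quot_le hc hH hw hk i hα hD).trans hcK
  have hb := (bet_le hc hH hw hd hα hD).trans hcK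
  have hg := gam7_le hc hH hw hd hα hD
  have q1 := hq (d - 1) 1 (Nat.sub_le _ _)
  have q2 := hq d 2 le_rfl
  have q3 := hq (d - 3) 0 (Nat.sub_le _ _)
  have q4 := hq (d - 2) 1 (Nat.sub_le _ _)
  have q5 := hq (d - 1) 2 (Nat.sub_le _ _)
  have q6 := hq d 3 le_rfl
  unfold del
  rw [abs_neg]
  set K := KN d w with hKd
  have e1 : |TT c (d - 1) 1 α / TT c d 1 α + 2 * (TT c d 2 α / TT c d 1 α) * bet c d α| ≤
      3 * K ^ 2 := by
    calc |TT c (d - 1) 1 α / TT c d 1 α + 2 * (TT c d 2 α / TT c d 1 α) * bet c d α|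
        ≤ |TT c (d - 1) 1 α / TT c d 1 α| + 2 * |TT c d 2 α / TT c d 1 α| * |bet c d α| := by
          refine (abs_add_le _ _).trans ?_
          rw [abs_mul, abs_mul 2, abs_two]
      _ ≤ K + 2 * K * K := by gcongr
      _ ≤ 3 * K ^ 2 := by nlinarith
  have e2 : |TT c (d - 3) 0 α / TT c d 1 α + TT c (d - 2) 1 α / TT c d 1 α * bet c d α +
    TT c (d - 1) 2 α / TT c d 1 α * bet c d α ^ 2 + TT c d 3 α / TT c d 1 α * bet c d α ^ 3| ≤
      4 * K ^ 4 := by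
    calc |TT c (d - 3) 0 α / TT c d 1 α + TT c (d - 2) 1 α / TT c d 1 α * bet c d α +
          TT c (d - 1) 2 α / TT c d 1 α * bet c d α ^ 2 + TT c d 3 α / TT c d 1 α * bet c d α ^ 3|
        ≤ |TT c (d - 3) 0 α / TT c d 1 α| + |TT c (d - 2) 1 α / TT c d 1 α| * |bet c d α| +
          |TT c (d - 1) 2 α / TT c d 1 α| * |bet c d α| ^ 2 +
          |TT c d 3 α / TT c d 1 α| * |bet c d α| ^ 3 := by
          refine (abs_add_le _ _).trans ?_
          rw [abs_mul (TT c d 3 α / TT c d 1 α), abs_pow]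
          gcongr
          refine (abs_add_le _ _).trans ?_
          rw [abs_mul (TT c (d - 1) 2 α / TT c d 1 α), abs_pow]
          gcongr
          refine (abs_add_le _ _).trans ?_
          rw [abs_mul]
      _ ≤ K + K * K + K * K ^ 2 + K * K ^ 3 := by gcongr
      _ ≤ 4 * K ^ 4 := by
          have f1 : K ≤ K ^ 4 := le_self_pow₀ hK (by norm_num)
          have f2 : K ^ 2 ≤ K ^ 4 := pow_le_pow_right₀ hK (by norm_num)
          have f3 : K ^ 3 ≤ K ^ 4 := pow_le_pow_right₀ hK (by norm_num)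
          nlinarith
  refine (abs_add_le _ _).trans ?_
  rw [abs_mul]
  calc |TT c (d - 1) 1 α / TT c d 1 α + 2 * (TT c d 2 α / TT c d 1 α) * bet c d α| *
        |gam c d α| + _ ≤ (3 * K ^ 2) * (3 * K ^ 3) + 4 * K ^ 4 := by gcongr
    _ ≤ 13 * K ^ 5 := by
        have f1 : K ^ 4 ≤ K ^ 5 := pow_le_pow_right₀ hK (by norm_num)
        nlinarith

/-- lower bound for `γ` -/
lemma gamB_ge {c : ℕ → ℕ → ℤ} {H g : ℝ} (hc : ∀ k i, |(c k i : ℝ)| ≤ H) (hH : 1 ≤ H)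
    (hw : 1 ≤ w) {α : ℝ} (hα : |α| ≤ 2) (hroot : TT c d 0 α = 0)
    (hD : H / (2 * w) ≤ |TT c d 1 α|) (hG : GB c d g) :
    g / (c1 d * H) ≤ |gam c d α| := by
  have hDp : 0 < |TT c d 1 α| := lt_of_lt_of_le (by positivity) hD
  have hD0 : TT c d 1 α ≠ 0 := abs_pos.1 hDp
  have h1 := c1_pos d
  have h := hG α hα hroot hD0
  rw [abs_mul] at h
  have h4 := TT_le hc (le_refl d) 1 hα
  rw [div_le_iff₀ (by positivity)]
  calc g ≤ |TT c d 1 α| * |gam c d α| := h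
    _ ≤ (c1 d * H) * |gam c d α| := by gcongr
    _ = _ := by ring

end Pool.Agent.R414.DS
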