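import Pool.Agent.R414.DN.Small

set_option autoImplicit false
set_option linter.unusedSectionVars false

/-! Curves with a small integer point, longer range. -/

open Finset

namespace Pool.Agent.R414.DS

open Pool.Agent.R414.DN

theorem card_small {d H A : ℕ} (hd : 6 ≤ d) (hH : 1 ≤ H) (S : Finset (Cf d))
    (hS : S ⊆ ibox ↥(I d) H)
    (hz : ∀ a ∈ S, ∃ x y : ℤ, x.natAbs ≤ A * H ^ 3 ∧ y.natAbs ≤ A * H ^ 3 ∧
      Fv (co a) d x y = 0) :
    (S.card : ℝ) ≤ (1 + 12 * 2 ^ d * (2 + (A : ℝ) ^ 2)) * (2 * H + 1) ^ (MM d - 1) := by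
  classical
  have hHr : (1 : ℝ) ≤ H := by exact_mod_cast hH
  have hM := MM_pos d
  have hsub : S ⊆ ((ibox ↥(I d) H).filter fun a => Fv (co a) d 0 0 = 0) ∪
      (range (A * H ^ 3)).biUnion fun Y => (shell (Y + 1)).biUnion fun P =>
        (ibox ↥(I d) H).filter fun a => Fv (co a) d P.1 P.2 = 0 := by
    intro a ha
    have ha1 := hS ha
    obtain ⟨x, y, hx, hy, h0⟩ := hz a ha
    rw [mem_union]
    by_cases hxy : x = 0 ∧ y = 0
    · left
      rw [mem_filter]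
      rw [hxy.1, hxy.2] at h0
      exact ⟨ha1, h0⟩
    · right
      rw [mem_biUnion]
      refine ⟨max x.natAbs y.natAbs - 1, ?_, ?_⟩
      · rw [mem_range]
        have h1 : max x.natAbs y.natAbs ≤ A * H ^ 3 := max_le hx hy
        have h2 : 0 < max x.natAbs y.natAbs := by
          rw [Nat.pos_iff_ne_zero]
          intro h3
          apply hxy
          constructor <;> omega
        omega
      · rw [mem_biUnion]
        refine ⟨(x, y), ?_, ?_⟩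
        · unfold shell
          simp only [mem_filter, mem_product, mem_Icc]
          omega
        · rw [mem_filter]
          exact ⟨ha1, h0⟩
  have hcard : S.card ≤ (2 * H + 1) ^ (MM d - 1) + ∑ Y ∈ range (A * H ^ 3),
      (4 * (2 * (Y + 1) + 1)) * ((2 * H / (Y + 1) + 1) ^ d * (2 * H + 1) ^ (MM d - (d + 1))) := by
    refine (card_le_card hsub).trans ((card_union_le _ _).trans (add_le_add
      (card_zero_at_zero d H) (card_biUnion_le.trans (sum_le_sum fun Y _ => ?_))))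
    refine card_biUnion_le.trans ?_
    calc ∑ P ∈ shell (Y + 1), ((ibox ↥(I d) H).filter fun a => Fv (co a) d P.1 P.2 = 0).card
        ≤ ∑ P ∈ shell (Y + 1),
          (2 * H / (Y + 1) + 1) ^ d * (2 * H + 1) ^ (MM d - (d + 1)) :=
          sum_le_sum fun P hP => shell_bound d H (Y + 1) (Nat.succ_pos Y) P hP
      _ = (shell (Y + 1)).card * _ := by rw [sum_const, smul_eq_mul]
      _ ≤ _ := Nat.mul_le_mul_right _ (card_shell _)
  have hcast : (S.card : ℝ) ≤ (2 * H + 1) ^ (MM d - 1) + ∑ Y ∈ range (A * H ^ 3),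
      (4 * (2 * ((Y : ℝ) + 1) + 1)) * ((((2 * H / (Y + 1) + 1) ^ d : ℕ) : ℝ) *
        (2 * H + 1) ^ (MM d - (d + 1))) := by
    have := @Nat.cast_le ℝ _ _ _ _ |>.2 hcard
    refine this.trans (le_of_eq ?_)
    push_cast
    rfl
  refine hcast.trans ?_
  set B : ℝ := (2 * H + 1) ^ (MM d - (d + 1)) with hB
  have hB0 : 0 < B := by rw [hB]; positivity
  have hterm : ∀ Y ∈ range (A * H ^ 3), (4 * (2 * ((Y : ℝ) + 1) + 1)) *
      ((((2 * H / (Y + 1) + 1) ^ d : ℕ) : ℝ) * B) ≤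
      12 * 2 ^ d * B * ((2 * H) ^ d * (1 / ((Y : ℝ) + 1) ^ 2) + (A : ℝ) * (H : ℝ) ^ 3) := by
    intro Y hY
    rw [mem_range] at hY
    have h1 := nat_div_bound d H (Y + 1) (Nat.succ_pos Y)
    push_cast at h1
    have hY1 : (1 : ℝ) ≤ (Y : ℝ) + 1 := by linarith [(Nat.cast_nonneg Y : (0 : ℝ) ≤ Y)]
    have hYH : (Y : ℝ) + 1 ≤ (A : ℝ) * (H : ℝ) ^ 3 := by exact_mod_cast hY
    have h2 : (4 * (2 * ((Y : ℝ) + 1) + 1)) ≤ 12 * ((Y : ℝ) + 1) := by linarith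
    have h3 : ((Y : ℝ) + 1) * (1 / ((Y : ℝ) + 1) ^ d) ≤ 1 / ((Y : ℝ) + 1) ^ 2 := by
      obtain ⟨e, rfl⟩ : ∃ e, d = e + 3 := ⟨d - 3, by omega⟩
      have hY0 : (0 : ℝ) < (Y : ℝ) + 1 := by linarith
      rw [mul_one_div, div_le_div_iff₀ (by positivity) (by positivity), one_mul,
        ← pow_succ']
      apply pow_le_pow_right₀ hY1
      omega
    push_cast
    calc (4 * (2 * ((Y : ℝ) + 1) + 1)) * (((2 * H / (Y + 1) : ℕ) + 1) ^ d * B)
        ≤ (12 * ((Y : ℝ) + 1)) * ((2 ^ d * ((2 * H) ^ d / ((Y : ℝ) + 1) ^ d + 1)) * B) := by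
          gcongr
      _ = 12 * 2 ^ d * B * ((2 * H) ^ d * (((Y : ℝ) + 1) * (1 / ((Y : ℝ) + 1) ^ d)) +
            ((Y : ℝ) + 1)) := by
          field_simp
      _ ≤ _ := by gcongr
  have hsum : ∑ Y ∈ range (A * H ^ 3), (4 * (2 * ((Y : ℝ) + 1) + 1)) *
      ((((2 * H / (Y + 1) + 1) ^ d : ℕ) : ℝ) * B) ≤
      12 * 2 ^ d * B * ((2 + (A : ℝ) ^ 2) * (2 * H + 1) ^ d) := by
    refine (sum_le_sum hterm).trans ?_
    rw [← mul_sum, sum_add_distrib, ← mul_sum, sum_const, card_range, nsmul_eq_mul]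
    have h1 := sum_inv_sq' (A * H ^ 3)
    have h2 : (((A * H ^ 3 : ℕ) : ℝ)) * ((A : ℝ) * (H : ℝ) ^ 3) ≤ (A : ℝ) ^ 2 * (2 * H + 1) ^ d := by
      push_cast
      calc (A : ℝ) * (H : ℝ) ^ 3 * ((A : ℝ) * (H : ℝ) ^ 3) = (A : ℝ) ^ 2 * (H : ℝ) ^ 6 := by ring
        _ ≤ (A : ℝ) ^ 2 * (H : ℝ) ^ d := by
          have := pow_le_pow_right₀ hHr hd
          gcongr
        _ ≤ (A : ℝ) ^ 2 * (2 * H + 1) ^ d := by gcongr; linarith
    have h3 : ((2 * H : ℝ)) ^ d ≤ (2 * H + 1) ^ d := by gcongr; linarith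
    have h4 : (0 : ℝ) ≤ (2 * H + 1) ^ d := by positivity
    have h5 : (0 : ℝ) ≤ (2 * (H : ℝ)) ^ d := by positivity
    gcongr
    nlinarith
  have hfin : (2 * (H : ℝ) + 1) ^ (MM d - 1) = B * (2 * H + 1) ^ d := by
    rw [hB, ← pow_add]
    congr 1
    omega
  rw [hfin] at *
  have h4 : 12 * 2 ^ d * B * ((2 + (A : ℝ) ^ 2) * (2 * (H : ℝ) + 1) ^ d) =
      12 * 2 ^ d * (2 + (A : ℝ) ^ 2) * (B * (2 * H + 1) ^ d) := by ring
  rw [h4] at hsum
  linarith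

end Pool.Agent.R414.DS
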