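import Pool.Agent.R414.DS.Lvl
import Pool.Agent.R414.DS.Sm
import Pool.Agent.R414.DN.Fin
import Pool.Agent.R414.DN.Exf

set_option autoImplicit false
set_option linter.unusedSectionVars false
set_option maxHeartbeats 400000

/-! The sharp bound. -/

open Finset

namespace Pool.Agent.R414.DS

open Pool.Agent.R414.DN

/-- the constant of the lower limit of the middle range -/
def A1 (d : ℕ) : ℕ := 312 * (2 * (d + 1) ^ 2 * ((d + 1) * 4 ^ d)) ^ 5 * ((d + 1) * 4 ^ d)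

lemma A1_eq (d : ℕ) : (A1 d : ℝ) = 312 * KN d 1 ^ 5 * c1 d := by
  unfold A1 KN c1
  push_cast
  ring

/-- curves with irreducible leading form are irreducible -/
lemma irr_of_Lead {d : ℕ} (hd : 1 ≤ d) {a : Cf d} (hL : Lead a) :
    Irreducible (MvPolynomial.map (Int.castRingHom ℚ) (poly a)) := by
  have hdeg : (MvPolynomial.map (Int.castRingHom ℚ) (poly a)).totalDegree = d := by
    refine Eq.trans ?_ (totalDegree_poly hL.1)
    unfold MvPolynomial.totalDegree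
    rw [MvPolynomial.support_map_of_injective _ (RingHom.injective_int _)]
  apply Pool.Agent.H322R2.irr_of_lead
  · rw [hdeg]
    exact hd
  · rw [hdeg, hc_map]
    exact irr_poly hd hL

lemma C2_nonneg (d : ℕ) (r : ℕ) : (0 : ℝ) ≤ 1 + 4 * d * (d + 1) * 3 ^ d * (3 * r) ^ d := by
  positivity

lemma C1_nonneg (d N r : ℕ) :
    (0 : ℝ) ≤ 1 + (4 * d * (d + 1) ^ 2 * 9 ^ d * r ^ (d - 1)) + d + N := by
  positivity

lemma C3_nonneg (d r : ℕ) : (0 : ℝ) ≤ 1 + 12 * 2 ^ d * (2 + (r : ℝ) ^ 2) := by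
  positivity

lemma CY_nonneg {d : ℕ} {L : ℝ} (hL0 : 0 ≤ L) : 0 ≤ CY d L := by
  have h1 := c1_pos d
  have h2 := KN_one (d := d) (le_refl (1 : ℝ))
  unfold CY CA s1
  positivity

/-- **Sharp upper bound.** -/
theorem card_zS_sharp {d : ℕ} (hd : 6 ≤ d) : ∃ C : ℝ, 0 ≤ C ∧ ∀ H : ℕ, 1 ≤ H →
    ((zS d H).card : ℝ) ≤ C * (2 * (H : ℝ) + 1) ^ (MM d - 1) := by
  classical
  obtain ⟨G, hGd⟩ : ∃ G, G = 10 ^ 17 * 1296 ^ d * (d + 1) ^ 15 := ⟨_, rfl⟩
  obtain ⟨N, hN⟩ : ∃ N, LargeC d G N := by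
    rw [hGd]
    exact ⟨_, exists_largeC (by omega : 4 ≤ d)⟩
  obtain ⟨C1, hC1⟩ : ∃ C1 : ℝ, C1 = 1 + (4 * d * (d + 1) ^ 2 * 9 ^ d * cS d ^ (d - 1)) + d + N :=
    ⟨_, rfl⟩
  obtain ⟨C2, hC2⟩ : ∃ C2 : ℝ, C2 = 1 + 4 * d * (d + 1) * 3 ^ d * (3 * cR d) ^ d := ⟨_, rfl⟩
  obtain ⟨C3, hC3⟩ : ∃ C3 : ℝ, C3 = 1 + 12 * 2 ^ d * (2 + (A1 d : ℝ) ^ 2) := ⟨_, rfl⟩
  obtain ⟨L, hLd⟩ : ∃ L : ℝ, L = G * (Real.log ((d + 1) * MM d) + 2) := ⟨_, rfl⟩
  have hM1 : (1 : ℝ) ≤ (d + 1) * MM d := by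
    have h1 : 1 ≤ (d + 1) * MM d := Nat.mul_pos (Nat.succ_pos d) (by have := MM_pos d; omega)
    exact_mod_cast h1
  have hL0 : 0 ≤ L := by
    rw [hLd]
    have := Real.log_nonneg hM1
    positivity
  have hC1' : 0 ≤ C1 := by rw [hC1]; exact C1_nonneg d N (cS d)
  have hC2' : 0 ≤ C2 := by rw [hC2]; exact C2_nonneg d (cR d)
  have hC3' : 0 ≤ C3 := by rw [hC3]; exact C3_nonneg d (A1 d)
  have hCY : 0 ≤ CY d L := CY_nonneg hL0
  refine ⟨C3 + C2 + C1 + CY d L + CY d L,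
    add_nonneg (add_nonneg (add_nonneg (add_nonneg hC3' hC2') hC1') hCY) hCY, fun H hH => ?_⟩
  have hH' : (1 : ℝ) ≤ H := by exact_mod_cast hH
  have hX : (1 : ℝ) ≤ 2 * (H : ℝ) + 1 := by linarith
  have hz : zS d H ⊆ ibox ↥(I d) H := fun a ha => (mem_zS.1 ha).1
  have hlog0 : 0 ≤ Real.log (Yn d H G : ℝ) := Real.log_natCast_nonneg _
  have hlog : Real.log (Yn d H G : ℝ) ≤ L * Real.sqrt H := by
    rw [Real.sqrt_eq_rpow, hLd]
    exact log_Yn_le hH
  have habs : ∀ n : ℤ, |(n : ℝ)| = ((n.natAbs : ℕ) : ℝ) := by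
    intro n
    rw [← Int.cast_abs, Int.abs_eq_natAbs, Int.cast_natCast]
  have hsub : zS d H ⊆
      (zS d H).filter (fun a => ∃ x y : ℤ, x.natAbs ≤ A1 d * H ^ 3 ∧ y.natAbs ≤ A1 d * H ^ 3 ∧
        Fv (co a) d x y = 0) ∪
      ((zS d H).filter (fun a => ¬ Lead a) ∪
      (excS d H G ∪
      ((zS d H).filter (fun a => YT d H (A1 d * (H : ℝ) ^ 3) (Yn d H G) a) ∪
      (zS d H).filter (fun a => YT d H (A1 d * (H : ℝ) ^ 3) (Yn d H G) (swV a))))) := by
    intro a ha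
    simp only [mem_union, mem_filter]
    obtain ⟨ha1, x, y, h0⟩ := mem_zS.1 ha
    by_cases h1 : max x.natAbs y.natAbs ≤ A1 d * H ^ 3
    · left
      exact ⟨ha, x, y, (le_max_left _ _).trans h1, (le_max_right _ _).trans h1, h0⟩
    by_cases h2 : Lead a
    swap
    · exact Or.inr (Or.inl ⟨ha, h2⟩)
    by_cases h3 : max x.natAbs y.natAbs ≤ Yn d H G
    swap
    · right; right; left
      rw [mem_excS]
      refine ⟨ha1, irr_of_Lead (by omega) h2, x, y, h0, ?_⟩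
      refine lt_of_le_of_lt ?_ (not_le.1 h3)
      unfold Yn
      apply Nat.pow_le_pow_left
      exact Nat.mul_le_mul_left _ (len_poly ha1)
    rw [not_le] at h1
    rcases le_total x.natAbs y.natAbs with h4 | h4
    · right; right; right; left
      rw [max_eq_right h4] at h1 h3
      refine ⟨ha, noRoot_of_lead (by omega) h2, x, y, h0, ?_, ?_, ?_⟩
      · rw [Int.abs_eq_natAbs, Int.abs_eq_natAbs]
        exact_mod_cast h4
      · rw [habs]
        exact_mod_cast h1.le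
      · rw [habs]
        exact_mod_cast h3
    · right; right; right; right
      rw [max_eq_left h4] at h1 h3
      refine ⟨ha, noRoot_swV (by omega) h2, y, x, ?_, ?_, ?_, ?_⟩
      · rw [Fv_swV]
        exact h0
      · rw [Int.abs_eq_natAbs, Int.abs_eq_natAbs]
        exact_mod_cast h4
      · rw [habs]
        exact_mod_cast h1.le
      · rw [habs]
        exact_mod_cast h3
  have b0 := card_small (A := A1 d) hd hH ((zS d H).filter (fun a => ∃ x y : ℤ,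
      x.natAbs ≤ A1 d * H ^ 3 ∧ y.natAbs ≤ A1 d * H ^ 3 ∧ Fv (co a) d x y = 0))
    ((filter_subset _ _).trans hz) (fun a ha => (mem_filter.1 ha).2)
  rw [← hC3] at b0
  have b1 := card_notLead (by omega : 4 ≤ d) hH ((zS d H).filter (fun a => ¬ Lead a))
    ((filter_subset _ _).trans hz) (fun a ha => (mem_filter.1 ha).2)
  rw [← hC2] at b1
  have b2 := card_excS hN (by omega : 5 ≤ d) hH
  rw [← hC1] at b2
  have b3 := card_ytype (L := L) hd hH (by rw [A1_eq]) hL0 hlog0 hlog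
    (S := (zS d H).filter (fun a => YT d H (A1 d * (H : ℝ) ^ 3) (Yn d H G) a))
    ((filter_subset _ _).trans hz) (fun a ha => (mem_filter.1 ha).2)
  have b4 := card_ytype (L := L) (Y₀ := A1 d * (H : ℝ) ^ 3) hd hH (by rw [A1_eq]) hL0 hlog0 hlog
    (S := ((zS d H).filter (fun a => YT d H (A1 d * (H : ℝ) ^ 3) (Yn d H G) (swV a))).image swV)
    (by
      intro b hb
      rw [mem_image] at hb
      obtain ⟨a, ha, rfl⟩ := hb
      exact swV_mem (hz (mem_filter.1 ha).1))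
    (by
      intro b hb
      rw [mem_image] at hb
      obtain ⟨a, ha, rfl⟩ := hb
      exact (mem_filter.1 ha).2)
  rw [card_image_of_injective _ swV_inj] at b4
  have b2' : ((excS d H G).card : ℝ) ≤ C1 * (2 * (H : ℝ) + 1) ^ (MM d - 1) := by
    refine b2.trans ?_
    have h1 : (2 * (H : ℝ) + 1) ^ (MM d - 2) ≤ (2 * (H : ℝ) + 1) ^ (MM d - 1) :=
      pow_le_pow_right₀ hX (by omega)
    gcongr
  have hcard := (card_le_card hsub).trans ((card_union_le _ _).trans (add_le_add le_rfl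
    ((card_union_le _ _).trans (add_le_add le_rfl
    ((card_union_le _ _).trans (add_le_add le_rfl (card_union_le _ _)))))))
  have hcard' := (Nat.cast_le (α := ℝ)).2 hcard
  simp only [Nat.cast_add] at hcard'
  have e : (C3 + C2 + C1 + CY d L + CY d L) * (2 * (H : ℝ) + 1) ^ (MM d - 1) =
      C3 * (2 * (H : ℝ) + 1) ^ (MM d - 1) + C2 * (2 * (H : ℝ) + 1) ^ (MM d - 1) +
      C1 * (2 * (H : ℝ) + 1) ^ (MM d - 1) + CY d L * (2 * (H : ℝ) + 1) ^ (MM d - 1) +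
      CY d L * (2 * (H : ℝ) + 1) ^ (MM d - 1) := by ring
  rw [e]
  linarith

end Pool.Agent.R414.DS
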