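import Pool.Agent.R414.DS.Rel

set_option autoImplicit false
set_option linter.unusedSectionVars false

/-! Fibres. -/

open Finset

namespace Pool.Agent.R414.DS

open Pool.Agent.R414.DN

/-- the fibre bound for the second condition -/
lemma fiber_notGB {d : ℕ} {g : ℝ} (hd : 2 ≤ d) (hg : 0 ≤ g) (p2 : ↥(I d))
    (hp2 : p2.1 = (d - 2, 0)) (b : Cf d) (T : Finset (Cf d))
    (hTb : ∀ a ∈ T, ∀ i ∉ ({p2} : Finset ↥(I d)), a i = b i)
    (hNR : ∀ a ∈ T, NoRoot (co a) d) (hG : ∀ a ∈ T, ¬ GB (co a) d g) :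
    (T.card : ℝ) ≤ d * (2 * g + 1) := by
  classical
  rcases T.eq_empty_or_nonempty with h0 | ⟨a₀, h0⟩
  · rw [h0, card_empty, Nat.cast_zero]
    positivity
  have hupd : ∀ a ∈ T, Function.update a p2 0 = Function.update b p2 0 := by
    intro a ha
    funext i
    by_cases hi : i = p2
    · rw [hi, Function.update_self, Function.update_self]
    · rw [Function.update_of_ne hi, Function.update_of_ne hi]
      exact hTb a ha i (by rwa [mem_singleton])
  obtain ⟨b0, hb0⟩ : ∃ b0, b0 = Function.update b p2 0 := ⟨_, rfl⟩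
  rw [← hb0] at hupd
  have hp21 : p2.1.1 = d - 2 := congrArg Prod.fst hp2
  have hp22 : p2.1.2 = 0 := congrArg Prod.snd hp2
  have e1 : ∀ a ∈ T, ∀ k i t, k ≠ d - 2 → TT (co a) k i t = TT (co b0) k i t := by
    intro a ha k i t hk
    rw [← hupd a ha, TT_update_ne]
    left
    rw [hp21]
    exact hk
  have e2 : ∀ a ∈ T, ∀ t, TT (co a) (d - 2) 0 t = a p2 + TT (co b0) (d - 2) 0 t := by
    intro a ha t
    have h1 := TT_update a p2 t
    rw [hupd a ha, hp21, hp22] at h1
    exact h1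
  have e3 : ∀ a ∈ T, ∀ t, bet (co a) d t = bet (co b0) d t := by
    intro a ha t
    unfold bet
    rw [e1 a ha _ _ _ (by omega), e1 a ha _ _ _ (by omega)]
  have hNR0 : NoRoot (co b0) d := by
    intro p q hq h1
    apply hNR a₀ h0 p q hq
    rw [← h1]
    refine sum_congr rfl fun i _ => ?_
    congr 1
    rw [← hupd a₀ h0, co_update]
    intro h2
    have h3 := congrArg Prod.fst h2
    simp only at h3
    omega
  have key := card_cover (S := T) (K := rts (co b0) d)
    (fun α a => |(a p2 : ℝ) + (TT (co b0) (d - 2) 0 α + TT (co b0) (d - 1) 1 α * bet (co b0) d α +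
      TT (co b0) d 2 α * bet (co b0) d α ^ 2)| ≤ g) (B := 2 * g + 1) ?_ ?_
  · refine key.trans ?_
    have := card_rts (co b0) d
    have h3 : ((rts (co b0) d).card : ℝ) ≤ d := by exact_mod_cast this
    gcongr
  · intro a ha
    have h2 := hG a ha
    unfold GB at h2
    push Not at h2
    obtain ⟨α, -, h3, h4, h5⟩ := h2
    refine ⟨α, ?_, ?_⟩
    · apply mem_rts hNR0
      rw [← e1 a ha _ _ _ (by omega)]
      exact h3
    · have h6 : TT (co a) d 1 α * gam (co a) d α = -((a p2 : ℝ) + (TT (co b0) (d - 2) 0 α +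
          TT (co b0) (d - 1) 1 α * bet (co b0) d α + TT (co b0) d 2 α * bet (co b0) d α ^ 2)) := by
        unfold gam
        rw [e3 a ha, e2 a ha, e1 a ha (d - 1) _ _ (by omega), e1 a ha d 2 _ (by omega)]
        field_simp
        ring
      rw [h6, abs_neg] at h5
      exact h5.le
  · intro α _ T' hT' hP
    have h7 : T'.card = (T'.image fun a => a p2).card := by
      rw [card_image_of_injOn]
      intro a ha a' ha' haa
      rw [mem_coe] at ha ha'
      funext i
      by_cases hi : i = p2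
      · rw [hi]
        exact haa
      · rw [hTb a (hT' ha) i (by rwa [mem_singleton]), hTb a' (hT' ha') i (by rwa [mem_singleton])]
    rw [h7]
    apply int_window hg (c := -(TT (co b0) (d - 2) 0 α + TT (co b0) (d - 1) 1 α * bet (co b0) d α +
      TT (co b0) d 2 α * bet (co b0) d α ^ 2))
    intro n hn
    rw [mem_image] at hn
    obtain ⟨a, ha, rfl⟩ := hn
    rw [sub_neg_eq_add]
    exact hP a ha

/-- the indices of the low pure powers of `y` -/
def J4 (d : ℕ) : Finset ↥(I d) := univ.filter fun p => p.1.2 = 0 ∧ p.1.1 + 4 ≤ d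

lemma card_J4 (d : ℕ) : (J4 d).card = d - 3 := by
  rw [← card_range (d - 3)]
  refine card_bij' (fun p _ => p.1.1) (fun k hk => ip d k (by rw [mem_range] at hk; omega)) ?_ ?_
    ?_ ?_
  · intro p hp
    unfold J4 at hp
    rw [mem_filter] at hp
    rw [mem_range]
    omega
  · intro k hk
    rw [mem_range] at hk
    unfold J4
    rw [mem_filter]
    refine ⟨mem_univ _, rfl, ?_⟩
    show k + 4 ≤ d
    omega
  · intro p hp
    unfold J4 at hp
    rw [mem_filter] at hp
    apply Subtype.ext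
    apply Prod.ext
    · rfl
    · exact hp.2.1.symm
  · intro k hk
    rfl

/-- low coefficients are determined by a point with large second coordinate -/
lemma low_det {d H : ℕ} (hd : 4 ≤ d) {a a' : Cf d} (ha : a ∈ ibox ↥(I d) H)
    (ha' : a' ∈ ibox ↥(I d) H) (h : ∀ p ∉ J4 d, a p = a' p) {x y : ℤ} (hy : 2 * H < y.natAbs)
    (h1 : Fv (co a) d x y = 0) (h2 : Fv (co a') d x y = 0) : a = a' := by
  classical
  obtain ⟨e, rfl⟩ : ∃ e, d = e + 4 := ⟨d - 4, by omega⟩
  have hy0 : y ≠ 0 := by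
    rintro rfl
    simp at hy
  have key := card_digits H y hy0 e (∑ j : Fin (e + 1), co a' j 0 * y ^ (j : ℕ))
  rw [Nat.div_eq_of_lt hy, zero_add, one_pow, card_le_one] at key
  have h3 : Fv (co a) (e + 4) x y - Fv (co a') (e + 4) x y =
      ∑ k ∈ range (e + 1), (co a k 0 * y ^ k - co a' k 0 * y ^ k) := by
    unfold Fv
    rw [← sum_sub_distrib, ← sum_subset (range_subset_range.2 (by omega : e + 1 ≤ e + 4 + 1))]
    · refine sum_congr rfl fun k hk => ?_
      rw [← sum_sub_distrib, sum_eq_single_of_mem 0 (mem_range.2 (Nat.succ_pos k))]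
      · simp
      · intro i hi hi0
        rw [mem_range] at hk hi
        have hmem : (k, i) ∈ I (e + 4) := by rw [mem_I]; omega
        have hnJ : (⟨(k, i), hmem⟩ : ↥(I (e + 4))) ∉ J4 (e + 4) := by
          unfold J4
          rw [mem_filter]
          rintro ⟨-, h, -⟩
          exact hi0 h
        rw [co_of_mem a hmem, co_of_mem a' hmem, h _ hnJ, sub_self]
    · intro k hk hk'
      rw [mem_range] at hk hk'
      rw [← sum_sub_distrib]
      apply sum_eq_zero
      intro i hi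
      rw [mem_range] at hi
      have hmem : (k, i) ∈ I (e + 4) := by rw [mem_I]; omega
      have hnJ : (⟨(k, i), hmem⟩ : ↥(I (e + 4))) ∉ J4 (e + 4) := by
        unfold J4
        rw [mem_filter]
        rintro ⟨-, -, h⟩
        have h' : k + 4 ≤ e + 4 := h
        omega
      rw [co_of_mem a hmem, co_of_mem a' hmem, h _ hnJ, sub_self]
  rw [h1, h2, sub_zero, sum_sub_distrib] at h3
  have h4 := key (fun j => co a j 0) (by
      rw [mem_filter, mem_ibox]
      refine ⟨fun i => co_le ha _ _, ?_⟩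
      rw [Fin.sum_univ_eq_sum_range (fun k => co a k 0 * y ^ k),
        Fin.sum_univ_eq_sum_range (fun k => co a' k 0 * y ^ k)]
      linarith)
    (fun j => co a' j 0) (by
      rw [mem_filter, mem_ibox]
      exact ⟨fun i => co_le ha' _ _, rfl⟩)
  funext p
  by_cases hp : p ∈ J4 (e + 4)
  · have hpI := mem_I.1 p.2
    unfold J4 at hp
    rw [mem_filter] at hp
    have h5 := congrFun h4 ⟨p.1.1, by omega⟩
    simp only at h5
    have h6 : p = ip (e + 4) p.1.1 hpI.1 := by
      apply Subtype.ext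
      apply Prod.ext
      · rfl
      · exact hp.2.1
    rw [co_of_mem a (ip (e + 4) p.1.1 hpI.1).2, co_of_mem a' (ip (e + 4) p.1.1 hpI.1).2] at h5
    rw [h6]
    exact h5
  · exact h p hp

/-- the bound in a fibre -/
noncomputable def MB (d : ℕ) (w H g Y₁ : ℝ) : ℕ :=
  ⌊2 * Real.sqrt (BB d w H g) + 2⌋₊ * (d * (2 * (⌊4 * KN d w * Real.log Y₁⌋₊ + 1)))

lemma mid_fiber {d H : ℕ} {w g Y₀ Y₁ : ℝ} (hd : 4 ≤ d) (hH : 1 ≤ H) (hw : 1 ≤ w) (hg : 0 < g)
    (hYa : 4 * d ^ 2 * c1 d ^ 2 * w ^ 2 ≤ Y₀) (hYb : 156 * KN d w ^ 3 ≤ Y₀)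
    (hYc : 312 * KN d w ^ 5 ≤ g / (c1 d * H) * Y₀) (hY2 : 2 * (H : ℝ) < Y₀)
    (b : Cf d) (T : Finset (Cf d)) (hT : T ⊆ ibox ↥(I d) H)
    (hTb : ∀ a ∈ T, ∀ i ∉ J4 d, a i = b i)
    (hNR : ∀ a ∈ T, NoRoot (co a) d) (hA : ∀ a ∈ T, GA (co a) d H w)
    (hB : ∀ a ∈ T, GB (co a) d g)
    (hz : ∀ a ∈ T, ∃ x y : ℤ, Fv (co a) d x y = 0 ∧ |x| ≤ |y| ∧ Y₀ ≤ |(y : ℝ)| ∧
      |(y : ℝ)| ≤ Y₁) :
    T.card ≤ MB d w H g Y₁ := by
  classical
  rcases T.eq_empty_or_nonempty with h0 | ⟨a₀, h0⟩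
  · rw [h0, card_empty]
    exact Nat.zero_le _
  have hH' : (1 : ℝ) ≤ H := by exact_mod_cast hH
  choose! x y hxy using hz
  have htop : ∀ a ∈ T, TopEq d (co a) (co a₀) := by
    intro a ha k i hk
    by_cases hmem : (k, i) ∈ I d
    · rw [co_of_mem a hmem, co_of_mem a₀ hmem]
      have hnJ : (⟨(k, i), hmem⟩ : ↥(I d)) ∉ J4 d := by
        unfold J4
        rw [mem_filter]
        rintro ⟨-, -, h⟩
        have h' : k + 4 ≤ d := h
        omega
      rw [hTb a ha _ hnJ, hTb a₀ h0 _ hnJ]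
    · unfold co
      rw [dif_neg hmem, dif_neg hmem]
  unfold MB
  rw [← card_image_of_injOn (f := fun a => (x a, y a))]
  · apply card_midS hd hw hH' hg hYa hYb hYc (co_le' (hT h0)) (hA a₀ h0) (hB a₀ h0) (hNR a₀ h0)
    intro P hP
    rw [mem_image] at hP
    obtain ⟨a, ha, rfl⟩ := hP
    obtain ⟨e1, e2, e3, e4⟩ := hxy a ha
    exact ⟨co a, htop a ha, co_le' (hT ha), e1, e2, e3, e4⟩
  · intro a ha a' ha' haa
    rw [mem_coe] at ha ha'
    have e1 := hxy a ha
    have e2 := hxy a' ha'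
    simp only [Prod.mk.injEq] at haa
    rw [← haa.1, ← haa.2] at e2
    apply low_det hd (hT ha) (hT ha') ?_ ?_ e1.1 e2.1
    · intro p hp
      rw [hTb a ha p hp, hTb a' ha' p hp]
    · have h3 : 2 * (H : ℝ) < |(y a : ℝ)| := lt_of_lt_of_le hY2 e1.2.2.1
      rw [← Int.cast_abs, Int.abs_eq_natAbs, Int.cast_natCast] at h3
      exact_mod_cast h3

end Pool.Agent.R414.DS
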