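import Pool.Agent.R414.DS.Lev

set_option autoImplicit false
set_option linter.unusedSectionVars false

/-! Levels. -/

open Finset

namespace Pool.Agent.R414.DS

open Pool.Agent.R414.DN

/-- constant in the bound for products of gaps -/
noncomputable def s1 (d : ℕ) : ℝ := 12800 * KN d 1 ^ 7 * c1 d

lemma KN_scale (d : ℕ) (w : ℝ) : KN d w = KN d 1 * w := by unfold KN; ring

lemma MB_le {d H : ℕ} {w Y₁ L : ℝ} (hH : 1 ≤ H) (hw : 1 ≤ w) (hL0 : 0 ≤ L)
    (hlog0 : 0 ≤ Real.log Y₁) (hL : Real.log Y₁ ≤ L * Real.sqrt H) :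
    (MB d w H w Y₁ : ℝ) ≤ 8 * s1 d * d * (4 * KN d 1 * L + 1) * w ^ 4 * H := by
  have hH' : (1 : ℝ) ≤ H := by exact_mod_cast hH
  have hH0 : (0 : ℝ) < H := by linarith
  have hc1 := c1_pos d
  have hK := KN_one (d := d) (le_refl (1 : ℝ))
  have hw0 : 0 < w := by linarith
  have hs1 : 1 ≤ s1 d := by
    unfold s1
    have h1 : 1 ≤ KN d 1 ^ 7 := one_le_pow₀ hK
    calc (1 : ℝ) ≤ 12800 * 1 * 1 := by norm_num
      _ ≤ _ := by gcongr
  have hsq : 1 ≤ Real.sqrt H := by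
    rw [Real.one_le_sqrt]
    exact hH'
  have hBB : BB d w H w = s1 d * (w ^ 3) ^ 2 * H := by
    unfold BB s1
    rw [KN_scale d w]
    field_simp
  have h1 : Real.sqrt (BB d w H w) ≤ s1 d * w ^ 3 * Real.sqrt H := by
    rw [hBB]
    apply Real.sqrt_le_iff.2
    constructor
    · positivity
    · have h2 : (s1 d * w ^ 3 * Real.sqrt H) ^ 2 = s1 d ^ 2 * (w ^ 3) ^ 2 * H := by
        rw [mul_pow, mul_pow, Real.sq_sqrt hH0.le]
      rw [h2]
      have h3 : s1 d ≤ s1 d ^ 2 := le_self_pow₀ hs1 two_ne_zero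
      gcongr
  have h2 : (⌊2 * Real.sqrt (BB d w H w) + 2⌋₊ : ℝ) ≤ 4 * s1 d * w ^ 3 * Real.sqrt H := by
    refine (Nat.floor_le (by positivity)).trans ?_
    have h3 : 1 ≤ s1 d * w ^ 3 * Real.sqrt H := by
      have h4 : 1 ≤ w ^ 3 := one_le_pow₀ hw
      calc (1 : ℝ) = 1 * 1 * 1 := by norm_num
        _ ≤ _ := by gcongr
    linarith
  have h3 : (⌊4 * KN d w * Real.log Y₁⌋₊ : ℝ) ≤ 4 * KN d 1 * L * w * Real.sqrt H := by
    refine (Nat.floor_le (by have := KN_one (d := d) hw; positivity)).trans ?_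
    rw [KN_scale d w]
    calc 4 * (KN d 1 * w) * Real.log Y₁ ≤ 4 * (KN d 1 * w) * (L * Real.sqrt H) := by gcongr
      _ = _ := by ring
  have h4 : (⌊4 * KN d w * Real.log Y₁⌋₊ : ℝ) + 1 ≤ (4 * KN d 1 * L + 1) * (w * Real.sqrt H) := by
    have h5 : 1 ≤ w * Real.sqrt H := by
      calc (1 : ℝ) = 1 * 1 := by norm_num
        _ ≤ _ := by gcongr
    have h6 : (4 * KN d 1 * L + 1) * (w * Real.sqrt H) =
      4 * KN d 1 * L * w * Real.sqrt H + w * Real.sqrt H := by ring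
    rw [h6]
    linarith
  unfold MB
  push_cast
  calc (⌊2 * Real.sqrt (BB d w H w) + 2⌋₊ : ℝ) *
        (d * (2 * ((⌊4 * KN d w * Real.log Y₁⌋₊ : ℝ) + 1)))
      ≤ (4 * s1 d * w ^ 3 * Real.sqrt H) *
        (d * (2 * ((4 * KN d 1 * L + 1) * (w * Real.sqrt H)))) := by gcongr
    _ = 8 * s1 d * d * (4 * KN d 1 * L + 1) * w ^ 4 * (Real.sqrt H * Real.sqrt H) := by ring
    _ = _ := by rw [Real.mul_self_sqrt hH0.le]

/-- the common properties -/
structure YT (d H : ℕ) (Y₀ Y₁ : ℝ) (a : Cf d) : Prop where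
  nr : NoRoot (co a) d
  z : ∃ x y : ℤ, Fv (co a) d x y = 0 ∧ |x| ≤ |y| ∧ Y₀ ≤ |(y : ℝ)| ∧ |(y : ℝ)| ≤ Y₁

/-- one level -/
lemma level_bound {d H : ℕ} {w Y₀ Y₁ L A : ℝ} (hd : 6 ≤ d) (hH : 1 ≤ H) (hw : 1 ≤ w)
    (hwH : w ^ 2 ≤ H) (hY0 : 312 * KN d 1 ^ 5 * c1 d * (H : ℝ) ^ 3 ≤ Y₀)
    (hL0 : 0 ≤ L) (hlog0 : 0 ≤ Real.log Y₁)
    (hL : Real.log Y₁ ≤ L * Real.sqrt H) {Q S : Finset (Cf d)} (hQ : Q ⊆ ibox ↥(I d) H)
    (hS : S ⊆ Q) (hsat : ∀ a ∈ Q, ∀ b ∈ ibox ↥(I d) H, (∀ i, co b d i = co a d i) → b ∈ Q)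
    (hcard : (Q.card : ℝ) ≤ A * (2 * (H : ℝ) + 1) ^ MM d / w ^ 2)
    (hY : ∀ a ∈ S, YT d H Y₀ Y₁ a) (hG : ∀ a ∈ S, GA (co a) d H w) :
    (S.card : ℝ) ≤ 3 * d * A * (2 * (H : ℝ) + 1) ^ (MM d - 1) * (1 / w) +
      8 * s1 d * d * (4 * KN d 1 * L + 1) * A * (w ^ 2 * H) *
        (2 * (H : ℝ) + 1) ^ (MM d - 3) := by
  classical
  have hH' : (1 : ℝ) ≤ H := by exact_mod_cast hH
  have hH0 : (0 : ℝ) < H := by linarith
  have hc1 := c1_pos d
  have hK := KN_one (d := d) (le_refl (1 : ℝ))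
  have hw0 : 0 < w := by linarith
  have hX : (1 : ℝ) ≤ 2 * (H : ℝ) + 1 := by linarith
  have hX0 : (0 : ℝ) < 2 * (H : ℝ) + 1 := by linarith
  have hA0 : 0 ≤ A := by
    have h1 : 0 ≤ A * (2 * (H : ℝ) + 1) ^ MM d / w ^ 2 := (Nat.cast_nonneg _).trans hcard
    by_contra hneg
    rw [not_le] at hneg
    have h2 : A * (2 * (H : ℝ) + 1) ^ MM d / w ^ 2 < 0 :=
      div_neg_of_neg_of_pos (mul_neg_of_neg_of_pos hneg (by positivity)) (by positivity)
    linarith
  have hMd := MM_pos d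
  have hMd2 : (d - 3) + 3 + 1 ≤ MM d := by omega
  -- the second condition fails
  obtain ⟨p2, hp2⟩ : ∃ p2 : ↥(I d), p2.1 = (d - 2, 0) :=
    ⟨⟨(d - 2, 0), by rw [mem_I]; exact ⟨Nat.sub_le _ _, Nat.zero_le _⟩⟩, rfl⟩
  have b1 := card_fiber_rel (H := H) (Q := Q) (S := S.filter fun a => ¬ GB (co a) d w) hQ
    ((filter_subset _ _).trans hS) {p2} (by
      intro a ha b hb hab
      apply hsat a ha b hb
      intro i
      by_cases hmem : (d, i) ∈ I d
      · rw [co_of_mem a hmem, co_of_mem b hmem]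
        apply hab
        rw [mem_singleton]
        intro h1
        have h2 := congrArg (fun p : ↥(I d) => p.1.1) h1
        simp only [hp2] at h2
        omega
      · unfold co
        rw [dif_neg hmem, dif_neg hmem])
    (B := d * (2 * w + 1)) (by positivity) (by
      intro b T hT hTb
      exact fiber_notGB (by omega) hw0.le p2 hp2 b T hTb
        (fun a ha => (hY a (mem_filter.1 (hT ha)).1).nr) (fun a ha => (mem_filter.1 (hT ha)).2))
  rw [card_singleton, pow_one] at b1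
  -- both conditions hold
  have hYY : ∀ n : ℕ, n ≤ 3 → (H : ℝ) ^ n ≤ (H : ℝ) ^ 3 := fun n hn => pow_le_pow_right₀ hH' hn
  have hwle : w ≤ H := le_trans (le_self_pow₀ hw two_ne_zero) hwH
  have hKd : 2 * d * c1 d ≤ KN d 1 := by
    have h1 := (KN_ge (d := d) (le_refl (1 : ℝ))).1
    unfold WW at h1
    linarith
  have hYa : 4 * d ^ 2 * c1 d ^ 2 * w ^ 2 ≤ Y₀ := by
    refine le_trans ?_ hY0
    calc 4 * d ^ 2 * c1 d ^ 2 * w ^ 2 = 1 * (2 * d * c1 d) ^ 2 * 1 * w ^ 2 := by ring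
      _ ≤ 312 * KN d 1 ^ 5 * c1 d * (H : ℝ) ^ 3 := by
        have h1 : (2 * d * c1 d) ^ 2 ≤ KN d 1 ^ 5 :=
          (pow_le_pow_left₀ (by positivity) hKd 2).trans (pow_le_pow_right₀ hK (by norm_num))
        have h2 : w ^ 2 ≤ (H : ℝ) ^ 3 := hwH.trans (by simpa using hYY 1 (by norm_num))
        gcongr
        norm_num
  have hYb : 156 * KN d w ^ 3 ≤ Y₀ := by
    refine le_trans ?_ hY0
    rw [KN_scale, mul_pow]
    calc 156 * (KN d 1 ^ 3 * w ^ 3) = 156 * KN d 1 ^ 3 * 1 * w ^ 3 := by ring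
      _ ≤ 312 * KN d 1 ^ 5 * c1 d * (H : ℝ) ^ 3 := by
        have h1 : KN d 1 ^ 3 ≤ KN d 1 ^ 5 := pow_le_pow_right₀ hK (by norm_num)
        gcongr
        norm_num
  have hYc : 312 * KN d w ^ 5 ≤ w / (c1 d * H) * Y₀ := by
    rw [div_mul_eq_mul_div, le_div_iff₀ (by positivity), KN_scale, mul_pow]
    calc 312 * (KN d 1 ^ 5 * w ^ 5) * (c1 d * H)
        = w * (312 * KN d 1 ^ 5 * c1 d * (w ^ 2 * w ^ 2 * H)) := by ring
      _ ≤ w * (312 * KN d 1 ^ 5 * c1 d * (H * H * H)) := by gcongr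
      _ = w * (312 * KN d 1 ^ 5 * c1 d * (H : ℝ) ^ 3) := by ring
      _ ≤ w * Y₀ := by gcongr
  have hY2 : 2 * (H : ℝ) < Y₀ := by
    refine lt_of_lt_of_le ?_ hY0
    calc 2 * (H : ℝ) < 312 * 1 * 1 * H := by linarith
      _ ≤ 312 * KN d 1 ^ 5 * c1 d * (H : ℝ) ^ 3 := by
        have h1 : 1 ≤ KN d 1 ^ 5 := one_le_pow₀ hK
        have h2 : (H : ℝ) ≤ (H : ℝ) ^ 3 := by simpa using hYY 1 (by norm_num)
        gcongr
  have b2 := card_fiber_rel (H := H) (Q := Q) (S := S.filter fun a => ¬ ¬ GB (co a) d w) hQ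
    ((filter_subset _ _).trans hS) (J4 d) (by
      intro a ha b hb hab
      apply hsat a ha b hb
      intro i
      by_cases hmem : (d, i) ∈ I d
      · rw [co_of_mem a hmem, co_of_mem b hmem]
        apply hab
        unfold J4
        rw [mem_filter]
        rintro ⟨-, -, h⟩
        have h' : d + 4 ≤ d := h
        omega
      · unfold co
        rw [dif_neg hmem, dif_neg hmem])
    (B := (MB d w H w Y₁ : ℝ)) (Nat.cast_nonneg _) (by
      intro b T hT hTb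
      have h1 := mid_fiber (H := H) (g := w) (by omega : 4 ≤ d) hH hw hw0 hYa hYb hYc hY2 b T
        ((hT.trans (filter_subset _ _)).trans (hS.trans hQ)) hTb
        (fun a ha => (hY a (mem_filter.1 (hT ha)).1).nr)
        (fun a ha => hG a (mem_filter.1 (hT ha)).1)
        (fun a ha => not_not.1 (mem_filter.1 (hT ha)).2)
        (fun a ha => (hY a (mem_filter.1 (hT ha)).1).z)
      exact_mod_cast h1)
  rw [card_J4] at b2
  have hMB := MB_le (d := d) (w := w) (Y₁ := Y₁) (L := L) hH hw hL0 hlog0 hL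
  -- first part
  have c1' : ((S.filter fun a => ¬ GB (co a) d w).card : ℝ) ≤
      3 * d * A * (2 * (H : ℝ) + 1) ^ (MM d - 1) * (1 / w) := by
    have e1 : (2 * (H : ℝ) + 1) ^ MM d = (2 * (H : ℝ) + 1) ^ (MM d - 1) * (2 * (H : ℝ) + 1) := by
      rw [← pow_succ]
      congr 1
      omega
    have e2 : ((S.filter fun a => ¬ GB (co a) d w).card : ℝ) * (2 * (H : ℝ) + 1) ≤
        (3 * d * A * (2 * (H : ℝ) + 1) ^ (MM d - 1) * (1 / w)) * (2 * (H : ℝ) + 1) := by
      refine b1.trans ?_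
      calc d * (2 * w + 1) * (Q.card : ℝ)
          ≤ d * (3 * w) * (A * (2 * (H : ℝ) + 1) ^ MM d / w ^ 2) := by
            gcongr
            linarith
        _ = _ := by
            rw [e1]
            field_simp
    exact le_of_mul_le_mul_right e2 hX0
  -- second part
  have c2' : ((S.filter fun a => ¬ ¬ GB (co a) d w).card : ℝ) ≤
      8 * s1 d * d * (4 * KN d 1 * L + 1) * A * (w ^ 2 * H) *
        (2 * (H : ℝ) + 1) ^ (MM d - 3) := by
    have e1 : (2 * (H : ℝ) + 1) ^ MM d ≤ (2 * (H : ℝ) + 1) ^ (MM d - 3) *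
        (2 * (H : ℝ) + 1) ^ (d - 3) := by
      rw [← pow_add]
      apply pow_le_pow_right₀ hX
      omega
    have hs1 : 0 ≤ s1 d := by unfold s1; positivity
    have e2 : ((S.filter fun a => ¬ ¬ GB (co a) d w).card : ℝ) * (2 * (H : ℝ) + 1) ^ (d - 3) ≤
        (8 * s1 d * d * (4 * KN d 1 * L + 1) * A * (w ^ 2 * H) *
        (2 * (H : ℝ) + 1) ^ (MM d - 3)) * (2 * (H : ℝ) + 1) ^ (d - 3) := by
      refine b2.trans ?_
      calc (MB d w H w Y₁ : ℝ) * (Q.card : ℝ)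
          ≤ (8 * s1 d * d * (4 * KN d 1 * L + 1) * w ^ 4 * H) *
            (A * ((2 * (H : ℝ) + 1) ^ (MM d - 3) * (2 * (H : ℝ) + 1) ^ (d - 3)) / w ^ 2) := by
            refine mul_le_mul hMB (hcard.trans ?_) (Nat.cast_nonneg _) (by positivity)
            gcongr
        _ = _ := by
            field_simp
    exact le_of_mul_le_mul_right e2 (by positivity)
  have h5 : ((S.filter fun a => ¬ GB (co a) d w).card : ℝ) +
      ((S.filter fun a => ¬ ¬ GB (co a) d w).card : ℝ) = S.card := by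
    have := card_filter_add_card_filter_not (s := S) (fun a => ¬ GB (co a) d w)
    exact_mod_cast this
  linarith

lemma sum_half (n : ℕ) : ∑ j ∈ range n, (1 / (2 : ℝ) ^ j) ≤ 2 := by
  have h : ∀ n : ℕ, ∑ j ∈ range n, (1 / (2 : ℝ) ^ j) = 2 - 2 / 2 ^ n := by
    intro n
    induction n with
    | zero => norm_num
    | succ n ih =>
      rw [sum_range_succ, ih, pow_succ]
      field_simp
      ring
  rw [h]
  have : (0 : ℝ) ≤ 2 / 2 ^ n := by positivity
  linarith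

lemma sum_four (n : ℕ) : ∑ j ∈ range (n + 1), ((4 : ℝ) ^ j) ≤ 2 * 4 ^ n := by
  induction n with
  | zero => norm_num
  | succ n ih =>
    rw [sum_range_succ, pow_succ]
    have : (0 : ℝ) ≤ 4 ^ n := by positivity
    linarith

/-- the constant for the middle range -/
noncomputable def CY (d : ℕ) (L : ℝ) : ℝ :=
  12 * CA d + 24 * d * CA d + 64 * s1 d * d * (4 * KN d 1 * L + 1) * CA d

/-- **Middle range.** -/
theorem card_ytype {d H : ℕ} {Y₀ Y₁ L : ℝ} (hd : 6 ≤ d) (hH : 1 ≤ H)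
    (hY0 : 312 * KN d 1 ^ 5 * c1 d * (H : ℝ) ^ 3 ≤ Y₀)
    (hL0 : 0 ≤ L) (hlog0 : 0 ≤ Real.log Y₁)
    (hL : Real.log Y₁ ≤ L * Real.sqrt H) {S : Finset (Cf d)} (hS : S ⊆ ibox ↥(I d) H)
    (hY : ∀ a ∈ S, YT d H Y₀ Y₁ a) :
    (S.card : ℝ) ≤ CY d L * (2 * (H : ℝ) + 1) ^ (MM d - 1) := by
  classical
  have hH' : (1 : ℝ) ≤ H := by exact_mod_cast hH
  have hH0 : (0 : ℝ) < H := by linarith
  have hc1 := c1_pos d
  have hK := KN_one (d := d) (le_refl (1 : ℝ))
  have hX : (1 : ℝ) ≤ 2 * (H : ℝ) + 1 := by linarith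
  have hX0 : (0 : ℝ) < 2 * (H : ℝ) + 1 := by linarith
  have hMd := MM_pos d
  have hs1 : 0 ≤ s1 d := by unfold s1; positivity
  have hCA : 1 ≤ CA d := by
    unfold CA
    have h1 : (0 : ℝ) ≤ 2 * d * c1 d := by positivity
    nlinarith
  obtain ⟨n, hn⟩ : ∃ n, n = Nat.log 4 H := ⟨_, rfl⟩
  have hn1 : 4 ^ n ≤ H := by rw [hn]; exact Nat.pow_log_le_self 4 (by omega)
  have hn2 : H < 4 ^ (n + 1) := by
    rw [hn]
    exact Nat.lt_pow_succ_log_self (by norm_num) H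
  have hn1' : (4 : ℝ) ^ n ≤ H := by exact_mod_cast hn1
  have hn2' : (H : ℝ) ≤ 4 * 4 ^ n := by
    have : (H : ℝ) < 4 ^ (n + 1) := by exact_mod_cast hn2
    rw [pow_succ] at this
    linarith
  have hsq : ∀ j : ℕ, ((2 : ℝ) ^ j) ^ 2 = 4 ^ j := by
    intro j
    rw [← pow_mul, mul_comm, pow_mul]
    norm_num
  obtain ⟨Q, hQd⟩ : ∃ Q : ℕ → Finset (Cf d), Q = fun j => (ibox ↥(I d) H).filter fun a =>
    j = 0 ∨ ¬ GA (co a) d H (2 ^ (j - 1)) := ⟨_, rfl⟩
  have hsub : S ⊆ S.filter (fun a => ¬ GA (co a) d H (2 ^ n)) ∪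
      (range (n + 1)).biUnion fun j => S.filter fun a => a ∈ Q j ∧ GA (co a) d H (2 ^ j) := by
    intro a ha
    rw [mem_union]
    by_cases h1 : GA (co a) d H (2 ^ n)
    · right
      have hex : ∃ j, GA (co a) d H (2 ^ j) := ⟨n, h1⟩
      have h2 := Nat.find_spec hex
      have h3 := Nat.find_min' hex h1
      rw [mem_biUnion]
      refine ⟨Nat.find hex, by rw [mem_range]; omega, ?_⟩
      rw [mem_filter]
      refine ⟨ha, ?_, h2⟩
      rw [hQd, mem_filter]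
      refine ⟨hS ha, ?_⟩
      rcases Nat.eq_zero_or_pos (Nat.find hex) with h4 | h4
      · exact Or.inl h4
      · right
        exact Nat.find_min hex (by omega)
    · left
      rw [mem_filter]
      exact ⟨ha, h1⟩
  -- the sets with no first condition
  have b0 := card_notGA (H := H) (by omega : 1 ≤ d) (one_le_pow₀ (by norm_num) : (1 : ℝ) ≤ 2 ^ n)
    (by rw [hsq]; exact hn1') (S.filter (fun a => ¬ GA (co a) d H (2 ^ n)))
    ((filter_subset _ _).trans hS) (fun a ha => (mem_filter.1 ha).2)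
  rw [hsq] at b0
  have eM : (2 * (H : ℝ) + 1) ^ MM d = (2 * (H : ℝ) + 1) ^ (MM d - 1) * (2 * (H : ℝ) + 1) := by
    rw [← pow_succ]
    congr 1
    omega
  have b0' : ((S.filter (fun a => ¬ GA (co a) d H (2 ^ n))).card : ℝ) ≤
      12 * CA d * (2 * (H : ℝ) + 1) ^ (MM d - 1) := by
    refine b0.trans ?_
    rw [div_le_iff₀ (by positivity), eM]
    calc CA d * ((2 * (H : ℝ) + 1) ^ (MM d - 1) * (2 * (H : ℝ) + 1))
        ≤ CA d * ((2 * (H : ℝ) + 1) ^ (MM d - 1) * (3 * (4 * 4 ^ n))) := by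
          gcongr
          linarith
      _ = _ := by ring
  -- the levels
  have hlev : ∀ j ∈ range (n + 1), ((S.filter fun a => a ∈ Q j ∧ GA (co a) d H (2 ^ j)).card : ℝ) ≤
      12 * d * CA d * (2 * (H : ℝ) + 1) ^ (MM d - 1) * (1 / 2 ^ j) +
      32 * s1 d * d * (4 * KN d 1 * L + 1) * CA d * H * (2 * (H : ℝ) + 1) ^ (MM d - 3) *
        4 ^ j := by
    intro j hj
    rw [mem_range] at hj
    have hw : (1 : ℝ) ≤ 2 ^ j := one_le_pow₀ (by norm_num)
    have hwH : ((2 : ℝ) ^ j) ^ 2 ≤ H := by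
      rw [hsq]
      exact (pow_le_pow_right₀ (by norm_num) (by omega)).trans hn1'
    have hQ : Q j ⊆ ibox ↥(I d) H := by rw [hQd]; exact filter_subset _ _
    have hcardQ : ((Q j).card : ℝ) ≤ (4 * CA d) * (2 * (H : ℝ) + 1) ^ MM d / (2 ^ j) ^ 2 := by
      rcases Nat.eq_zero_or_pos j with h0 | h0
      · have h1 : (Q j).card ≤ (2 * H + 1) ^ MM d := by
          have h2 := card_le_card hQ
          rw [card_ibox] at h2
          exact h2
        have h2 : ((Q j).card : ℝ) ≤ (2 * (H : ℝ) + 1) ^ MM d := by exact_mod_cast h1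
        rw [h0, pow_zero, one_pow, div_one]
        rw [h0] at h2
        refine h2.trans ?_
        have h3 : 0 < (2 * (H : ℝ) + 1) ^ MM d := by positivity
        nlinarith
      · have h1 := card_notGA (H := H) (d := d) (by omega : 1 ≤ d)
          (one_le_pow₀ (by norm_num) : (1 : ℝ) ≤ 2 ^ (j - 1)) (by
            rw [hsq]
            exact (pow_le_pow_right₀ (by norm_num) (by omega)).trans hn1') (Q j) hQ (by
            intro a ha
            rw [hQd, mem_filter] at ha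
            exact ha.2.resolve_left (by omega))
        refine h1.trans (le_of_eq ?_)
        have h2 : (2 : ℝ) ^ j = 2 * 2 ^ (j - 1) := by
          rw [← pow_succ']
          congr 1
          omega
        rw [h2]
        field_simp
        ring
    have h1 := level_bound (H := H) (w := 2 ^ j) (A := 4 * CA d) hd hH hw hwH hY0 hL0 hlog0 hL hQ
      (S := S.filter fun a => a ∈ Q j ∧ GA (co a) d H (2 ^ j))
      (fun a ha => (mem_filter.1 ha).2.1) (by
        intro a ha b hb hab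
        rw [hQd, mem_filter] at ha ⊢
        refine ⟨hb, ?_⟩
        rcases ha.2 with h2 | h2
        · exact Or.inl h2
        · right
          intro h3
          exact h2 (GA_congr hab h3)) hcardQ (fun a ha => hY a (mem_filter.1 ha).1)
        (fun a ha => (mem_filter.1 ha).2.2)
    refine h1.trans (le_of_eq ?_)
    rw [hsq]
    ring
  have hcard : (S.card : ℝ) ≤ ((S.filter (fun a => ¬ GA (co a) d H (2 ^ n))).card : ℝ) +
      ∑ j ∈ range (n + 1), ((S.filter fun a => a ∈ Q j ∧ GA (co a) d H (2 ^ j)).card : ℝ) := by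
    have h1 := (card_le_card hsub).trans ((card_union_le _ _).trans (add_le_add le_rfl
      card_biUnion_le))
    exact_mod_cast h1
  refine hcard.trans ((add_le_add b0' (sum_le_sum hlev)).trans ?_)
  rw [sum_add_distrib, ← mul_sum, ← mul_sum]
  have t1 := sum_half (n + 1)
  have t2 := sum_four n
  have e3 : (2 * (H : ℝ) + 1) ^ (MM d - 1) = (2 * (H : ℝ) + 1) ^ (MM d - 3) *
      (2 * (H : ℝ) + 1) ^ 2 := by
    rw [← pow_add]
    congr 1
    omega
  have e4 : (H : ℝ) * H ≤ (2 * (H : ℝ) + 1) ^ 2 := by nlinarith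
  calc 12 * CA d * (2 * (H : ℝ) + 1) ^ (MM d - 1) +
        (12 * d * CA d * (2 * (H : ℝ) + 1) ^ (MM d - 1) * ∑ j ∈ range (n + 1), (1 / (2 : ℝ) ^ j) +
        32 * s1 d * d * (4 * KN d 1 * L + 1) * CA d * H * (2 * (H : ℝ) + 1) ^ (MM d - 3) *
        ∑ j ∈ range (n + 1), ((4 : ℝ) ^ j))
      ≤ 12 * CA d * (2 * (H : ℝ) + 1) ^ (MM d - 1) +
        (12 * d * CA d * (2 * (H : ℝ) + 1) ^ (MM d - 1) * 2 +
        32 * s1 d * d * (4 * KN d 1 * L + 1) * CA d * H * (2 * (H : ℝ) + 1) ^ (MM d - 3) *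
        (2 * H)) := by
        have t3 := t2.trans (mul_le_mul_of_nonneg_left hn1' (by norm_num : (0 : ℝ) ≤ 2))
        gcongr
    _ = 12 * CA d * (2 * (H : ℝ) + 1) ^ (MM d - 1) +
        (24 * d * CA d * (2 * (H : ℝ) + 1) ^ (MM d - 1) +
        64 * s1 d * d * (4 * KN d 1 * L + 1) * CA d * ((2 * (H : ℝ) + 1) ^ (MM d - 3) *
        (H * H))) := by ring
    _ ≤ 12 * CA d * (2 * (H : ℝ) + 1) ^ (MM d - 1) +
        (24 * d * CA d * (2 * (H : ℝ) + 1) ^ (MM d - 1) +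
        64 * s1 d * d * (4 * KN d 1 * L + 1) * CA d * ((2 * (H : ℝ) + 1) ^ (MM d - 3) *
        (2 * (H : ℝ) + 1) ^ 2)) := by gcongr
    _ = _ := by
        rw [← e3]
        unfold CY
        ring

end Pool.Agent.R414.DS
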