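import Pool.Agent.R414.DN.Mid
import Pool.Agent.R414.DS.Att2
import Pool.Agent.R414.DS.Three2

set_option autoImplicit false
set_option linter.unusedSectionVars false

/-! Counting the integer points in the middle range for given leading forms, sharper form. -/

open Finset

namespace Pool.Agent.R414.DS

open Pool.Agent.R414.DN

/-- the data attached to a point -/
def GoodS (c : ℕ → ℕ → ℤ) (d : ℕ) (w H : ℝ) (P : ℤ × ℤ) (α : ℝ) : Prop :=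
  |α| ≤ 2 ∧ TT c d 0 α = 0 ∧ H / (2 * w) ≤ |TT c d 1 α| ∧
    |(P.1 : ℝ) - (α * P.2 + bet c d α + gam c d α / P.2 + del c d α / (P.2 : ℝ) ^ 2)| ≤
      200 * KN d w ^ 7 / |(P.2 : ℝ)| ^ 3

/-- the bound for products of gaps -/
noncomputable def BB (d : ℕ) (w H g : ℝ) : ℝ := 12800 * KN d w ^ 7 / (g / (c1 d * H))

section

variable {d : ℕ} {w H g Y₀ Y₁ : ℝ} (hd : 4 ≤ d) (hw : 1 ≤ w) (hH : 1 ≤ H) (hg : 0 < g)
  (hYa : 4 * d ^ 2 * c1 d ^ 2 * w ^ 2 ≤ Y₀) (hYb : 156 * KN d w ^ 3 ≤ Y₀)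
  (hYc : 312 * KN d w ^ 5 ≤ g / (c1 d * H) * Y₀) {c₀ : ℕ → ℕ → ℤ}
  (hc : ∀ k i, |(c₀ k i : ℝ)| ≤ H) (hG1 : GA c₀ d H w) (hG2 : GB c₀ d g)

include hd hw hH hYb

include hYa hG1 in
lemma exists_goodS {P : ℤ × ℤ} (hP : IsMid c₀ d H Y₀ Y₁ P) : ∃ α, GoodS c₀ d w H P α := by
  obtain ⟨c, htop, hcH, h0, hxy, hy0, -⟩ := hP
  have hG1' : GA c d H w := by
    intro t ht
    rw [TT_top htop (by omega), TT_top htop (by omega)]
    exact hG1 t ht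
  obtain ⟨α, h1, h2, h3, h4⟩ := exists_rootA (by omega : 1 ≤ d) hcH hH hw hG1' hxy
    (hYa.trans hy0) h0
  have hK := KN_one (d := d) hw
  have hKY : KN d w ≤ Y₀ := by
    have : KN d w ≤ KN d w ^ 3 := le_self_pow₀ hK (by norm_num)
    have h5 : 0 ≤ KN d w ^ 3 := by positivity
    linarith
  have hyne : P.2 ≠ 0 := by
    intro h
    rw [h, Int.cast_zero, abs_zero] at hy0
    linarith
  have h5 := attached7 hd hcH hH hw hyne h0 h1 h2 h3 h4 (hKY.trans hy0)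
  rw [bet_top htop, gam_top htop, del_top htop] at h5
  rw [TT_top htop (by omega)] at h2 h3
  exact ⟨α, h1, h2, h3, h5⟩

/-- two points with the same data and the same second coordinate are equal -/
lemma goodS_inj {P P' : ℤ × ℤ} {α : ℝ} (h : GoodS c₀ d w H P α) (h' : GoodS c₀ d w H P' α)
    (hy : Y₀ ≤ |(P.2 : ℝ)|) (hyy : P.2 = P'.2) : P = P' := by
  obtain ⟨-, -, -, h4⟩ := h
  obtain ⟨-, -, -, h4'⟩ := h'
  rw [← hyy] at h4'
  have hK := KN_one (d := d) hw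
  have h5 : 200 * KN d w ^ 7 / |(P.2 : ℝ)| ^ 3 < 1 / 2 := by
    have h6 : 156 * KN d w ^ 3 ≤ |(P.2 : ℝ)| := hYb.trans hy
    have h7 : (156 * KN d w ^ 3) ^ 3 ≤ |(P.2 : ℝ)| ^ 3 := by gcongr
    have h8 : KN d w ^ 7 ≤ KN d w ^ 9 := pow_le_pow_right₀ hK (by norm_num)
    have h9 : (156 * KN d w ^ 3) ^ 3 = 3796416 * KN d w ^ 9 := by ring
    have h10 : 0 < KN d w ^ 7 := by positivity
    rw [div_lt_div_iff₀ (by linarith) two_pos]
    linarith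
  have h6 : |((P.1 - P'.1 : ℤ) : ℝ)| < 1 := by
    have e : ((P.1 - P'.1 : ℤ) : ℝ) = ((P.1 : ℝ) - (α * P.2 + bet c₀ d α + gam c₀ d α / P.2 +
        del c₀ d α / (P.2 : ℝ) ^ 2)) - ((P'.1 : ℝ) - (α * P.2 + bet c₀ d α + gam c₀ d α / P.2 +
        del c₀ d α / (P.2 : ℝ) ^ 2)) := by push_cast; ring
    rw [e]
    refine lt_of_le_of_lt (abs_sub _ _) ?_
    linarith
  rw [← Int.cast_abs] at h6
  have h7 : |P.1 - P'.1| < 1 := by exact_mod_cast h6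
  rw [Int.abs_lt_one_iff] at h7
  exact Prod.ext (by linarith) hyy

include hg hYc hc hG2

lemma gaps {P1 P2 P3 : ℤ × ℤ} {α : ℝ} (h1 : GoodS c₀ d w H P1 α) (h2 : GoodS c₀ d w H P2 α)
    (h3 : GoodS c₀ d w H P3 α) (hy1 : Y₀ ≤ |(P1.2 : ℝ)|) (hy3 : Y₀ ≤ |(P3.2 : ℝ)|)
    (h12 : P1.2 < P2.2) (h23 : P2.2 < P3.2) (hsign : 0 < P1.2 ↔ 0 < P3.2)
    (hwin : ⌊4 * KN d w * Real.log |(P1.2 : ℝ)|⌋₊ = ⌊4 * KN d w * Real.log |(P3.2 : ℝ)|⌋₊) :
    ((P2.2 : ℝ) - P1.2) * (P3.2 - P2.2) ≤ BB d w H g := by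
  have hK := KN_one (d := d) hw
  have hY0 : 0 < Y₀ := lt_of_lt_of_le (by positivity) hYb
  have hcp := c1_pos d
  have n1 : P1.2 ≠ 0 := by
    intro h; rw [h, Int.cast_zero, abs_zero] at hy1; linarith
  have n3 : P3.2 ≠ 0 := by
    intro h; rw [h, Int.cast_zero, abs_zero] at hy3; linarith
  obtain ⟨w1, w3, wd⟩ := window (by linarith : (4 : ℝ) ≤ 4 * KN d w) n1 n3 hwin
  set Y := min |(P1.2 : ℝ)| |(P3.2 : ℝ)| with hYd
  have hYY : Y₀ ≤ Y := le_min hy1 hy3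
  have b1 : Y ≤ |(P1.2 : ℝ)| := min_le_left _ _
  have b3 : Y ≤ |(P3.2 : ℝ)| := min_le_right _ _
  have c12 : (P1.2 : ℝ) < P2.2 := by exact_mod_cast h12
  have c23 : (P2.2 : ℝ) < P3.2 := by exact_mod_cast h23
  have hb2 : Y ≤ |(P2.2 : ℝ)| ∧ |(P2.2 : ℝ)| ≤ 2 * Y ∧
      ((P3.2 : ℝ) - P1.2) = |(|(P3.2 : ℝ)| - |(P1.2 : ℝ)|)| := by
    by_cases hs : 0 < P1.2
    · have p1 : (0 : ℝ) < P1.2 := by exact_mod_cast hs
      have p3 : (0 : ℝ) < P3.2 := by linarith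
      rw [abs_of_pos p1, abs_of_pos p3] at *
      rw [abs_of_pos (by linarith : (0 : ℝ) < P2.2)]
      refine ⟨by linarith, by linarith, ?_⟩
      rw [abs_of_pos (by linarith)]
    · have q3 : P3.2 < 0 := by
        rcases lt_trichotomy P3.2 0 with h | h | h
        · exact h
        · exact absurd h n3
        · exact absurd (hsign.2 h) hs
      have p3 : (P3.2 : ℝ) < 0 := by exact_mod_cast q3
      have p1 : (P1.2 : ℝ) < 0 := by linarith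
      rw [abs_of_neg p1, abs_of_neg p3] at *
      rw [abs_of_neg (by linarith : (P2.2 : ℝ) < 0)]
      refine ⟨by linarith, by linarith, ?_⟩
      rw [abs_of_neg (by linarith)]
      ring
  have hYp : 0 < Y := by linarith
  have herr : ∀ P : ℤ × ℤ, GoodS c₀ d w H P α → Y ≤ |(P.2 : ℝ)| →
      |(P.1 : ℝ) - (α * P.2 + bet c₀ d α + gam c₀ d α / P.2 + del c₀ d α / (P.2 : ℝ) ^ 2)| ≤
        200 * KN d w ^ 7 / Y ^ 3 := by
    intro P hP hPY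
    refine hP.2.2.2.trans ?_
    gcongr
  have hκ : 0 < g / (c1 d * H) := by positivity
  have hgam := gamB_ge hc hH hw h1.1 h1.2.1 h1.2.2.1 hG2
  have key := three_pts (K := KN d w) (Y := Y) (α := α) (β := bet c₀ d α) (γ := gam c₀ d α)
    (δ := del c₀ d α) (κ := g / (c1 d * H))
    (e1 := (P1.1 : ℝ) - (α * P1.2 + bet c₀ d α + gam c₀ d α / P1.2 + del c₀ d α / (P1.2 : ℝ) ^ 2))
    (e2 := (P2.1 : ℝ) - (α * P2.2 + bet c₀ d α + gam c₀ d α / P2.2 + del c₀ d α / (P2.2 : ℝ) ^ 2))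
    (e3 := (P3.1 : ℝ) - (α * P3.2 + bet c₀ d α + gam c₀ d α / P3.2 + del c₀ d α / (P3.2 : ℝ) ^ 2))
    (x1 := P1.1) (x2 := P2.1) (x3 := P3.1) hK
    (gam7_le hc hH hw (by omega) h1.1 h1.2.2.1) (del7_le hc hH hw (by omega) h1.1 h1.2.2.1) hκ hgam
    h12 h23 ⟨b1, w1⟩ ⟨hb2.1, hb2.2.1⟩ ⟨b3, w3⟩ (by rw [hb2.2.2]; linarith) (hYb.trans hYY)
    (hYc.trans (by gcongr)) (herr P1 h1 b1) (herr P2 h2 hb2.1) (herr P3 h3 b3)
    (by ring) (by ring) (by ring)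
  unfold BB
  rw [le_div_iff₀ hκ, mul_comm]
  exact key

end

/-- **Few points in the middle range.** -/
theorem card_midS {d : ℕ} {w H g Y₀ Y₁ : ℝ} (hd : 4 ≤ d) (hw : 1 ≤ w) (hH : 1 ≤ H) (hg : 0 < g)
    (hYa : 4 * d ^ 2 * c1 d ^ 2 * w ^ 2 ≤ Y₀) (hYb : 156 * KN d w ^ 3 ≤ Y₀)
    (hYc : 312 * KN d w ^ 5 ≤ g / (c1 d * H) * Y₀) {c₀ : ℕ → ℕ → ℤ}
    (hc : ∀ k i, |(c₀ k i : ℝ)| ≤ H) (hG1 : GA c₀ d H w) (hG2 : GB c₀ d g) (hNR : NoRoot c₀ d)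
    (T : Finset (ℤ × ℤ)) (hT : ∀ P ∈ T, IsMid c₀ d H Y₀ Y₁ P) :
    T.card ≤ ⌊2 * Real.sqrt (BB d w H g) + 2⌋₊ *
      (d * (2 * (⌊4 * KN d w * Real.log Y₁⌋₊ + 1))) := by
  classical
  have hK := KN_one (d := d) hw
  have hcp := c1_pos d
  have hY0 : 1 ≤ Y₀ := by
    have h2 : 1 ≤ KN d w ^ 3 := one_le_pow₀ hK
    linarith
  have hBB : 0 ≤ BB d w H g := by unfold BB; positivity
  choose! a ha using fun P (hP : P ∈ T) => exists_goodS hd hw hH hYa hYb hG1 (hT P hP)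
  have hyT : ∀ P ∈ T, Y₀ ≤ |(P.2 : ℝ)| ∧ |(P.2 : ℝ)| ≤ Y₁ := by
    intro P hP
    obtain ⟨c, -, -, -, -, h1, h2⟩ := hT P hP
    exact ⟨h1, h2⟩
  have key := card_le_mul_card_image_of_maps_to (s := T)
    (t := rts c₀ d ×ˢ ((univ : Finset Bool) ×ˢ range (⌊4 * KN d w * Real.log Y₁⌋₊ + 1)))
    (f := fun P => (a P, decide (0 < P.2), ⌊4 * KN d w * Real.log |(P.2 : ℝ)|⌋₊)) ?_
    ⌊2 * Real.sqrt (BB d w H g) + 2⌋₊ ?_
  · refine key.trans ?_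
    rw [card_product, card_product, card_range, card_univ, Fintype.card_bool]
    have := card_rts c₀ d
    gcongr
  · intro P hP
    rw [mem_product, mem_product, mem_range]
    refine ⟨mem_rts hNR (ha P hP).2.1, mem_univ _, ?_⟩
    rw [Nat.lt_succ_iff]
    apply Nat.floor_le_floor
    have h1 := hyT P hP
    have h2 : Real.log |(P.2 : ℝ)| ≤ Real.log Y₁ := Real.log_le_log (by linarith) h1.2
    gcongr
  · rintro ⟨α, b, n⟩ _
    rw [Nat.le_floor_iff (by positivity)]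
    have hmem : ∀ P ∈ T.filter (fun P => (a P, decide (0 < P.2),
        ⌊4 * KN d w * Real.log |(P.2 : ℝ)|⌋₊) = (α, b, n)), P ∈ T ∧ GoodS c₀ d w H P α ∧
        decide (0 < P.2) = b ∧ ⌊4 * KN d w * Real.log |(P.2 : ℝ)|⌋₊ = n := by
      intro P hP
      rw [mem_filter] at hP
      obtain ⟨hP, rP⟩ := hP
      simp only [Prod.mk.injEq] at rP
      refine ⟨hP, ?_, rP.2.1, rP.2.2⟩
      rw [← rP.1]
      exact ha P hP
    obtain ⟨W, hW⟩ : ∃ W, W = T.filter (fun P => (a P, decide (0 < P.2),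
        ⌊4 * KN d w * Real.log |(P.2 : ℝ)|⌋₊) = (α, b, n)) := ⟨_, rfl⟩
    rw [← hW] at hmem ⊢
    have hcard : W.card = (W.image fun P => P.2).card := by
      rw [card_image_of_injOn]
      intro P hP Q hQ hPQ
      obtain ⟨p1, p2, -, -⟩ := hmem P hP
      obtain ⟨q1, q2, -, -⟩ := hmem Q hQ
      exact goodS_inj hd hw hH hYb p2 q2 (hyT P p1).1 hPQ
    rw [hcard]
    apply card_of_triples hBB
    intro y1 hy1 y2 hy2 y3 hy3 h12 h23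
    rw [mem_image] at hy1 hy2 hy3
    obtain ⟨P1, hP1, rfl⟩ := hy1
    obtain ⟨P2, hP2, rfl⟩ := hy2
    obtain ⟨P3, hP3, rfl⟩ := hy3
    obtain ⟨p1, p2, p3, p4⟩ := hmem P1 hP1
    obtain ⟨q1, q2, q3, q4⟩ := hmem P2 hP2
    obtain ⟨r1, r2, r3, r4⟩ := hmem P3 hP3
    refine gaps hd hw hH hg hYb hYc hc hG2 p2 q2 r2 (hyT P1 p1).1 (hyT P3 r1).1 h12 h23 ?_ ?_
    · have : decide (0 < P1.2) = decide (0 < P3.2) := by rw [p3, r3]
      simpa using this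
    · rw [p4, r4]

end Pool.Agent.R414.DS
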