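import Pool.Agent.R414.DN.Lead
import Pool.Agent.R414.DS.Mid2

set_option autoImplicit false
set_option linter.unusedSectionVars false

/-! Relative counting. -/

open Finset

namespace Pool.Agent.R414.DS

open Pool.Agent.R414.DN

section gen

variable {ι : Type} [Fintype ι] [DecidableEq ι]

/-- **Relative fibre bound.** -/
lemma card_fiber_rel {H : ℕ} {Q S : Finset (ι → ℤ)} (hQ : Q ⊆ ibox ι H) (hS : S ⊆ Q)
    (J : Finset ι) (hsat : ∀ a ∈ Q, ∀ b ∈ ibox ι H, (∀ i ∉ J, b i = a i) → b ∈ Q) {B : ℝ}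
    (hB0 : 0 ≤ B)
    (h : ∀ b : ι → ℤ, ∀ T ⊆ S, (∀ a ∈ T, ∀ i ∉ J, a i = b i) → (T.card : ℝ) ≤ B) :
    (S.card : ℝ) * (2 * (H : ℝ) + 1) ^ J.card ≤ B * Q.card := by
  classical
  let r : (ι → ℤ) → (ι → ℤ) := fun a i => if i ∈ J then 0 else a i
  have h1 : S.card ≤ ⌊B⌋₊ * (S.image r).card := by
    apply card_le_mul_card_image
    intro b _
    rw [Nat.le_floor_iff hB0]
    refine h b _ (filter_subset _ _) ?_
    intro a ha i hi
    rw [mem_filter] at ha
    rw [← ha.2]
    simp only [r]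
    rw [if_neg hi]
  have h2 : (2 * H + 1) ^ J.card * (Q.image r).card ≤ Q.card := by
    apply mul_card_image_le_card
    intro b hb
    rw [mem_image] at hb
    obtain ⟨a, ha, rfl⟩ := hb
    have h3 : (ibox0 H (univ \ J)).card = (2 * H + 1) ^ J.card := by
      rw [card_ibox0, card_univ_sdiff]
      congr 1
      have := card_le_univ J
      omega
    rw [← h3]
    apply card_le_card_of_injOn (fun v i => if i ∈ J then v i else a i)
    · intro v hv
      rw [mem_coe, mem_ibox0] at hv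
      have ha' := mem_ibox.1 (hQ ha)
      rw [mem_coe, mem_filter]
      constructor
      · apply hsat a ha
        · rw [mem_ibox]
          intro i
          simp only
          split_ifs
          · exact (hv i).1
          · exact ha' i
        · intro i hi
          simp only
          rw [if_neg hi]
      · funext i
        simp only [r]
        split_ifs <;> rfl
    · intro v hv v' hv' hvv
      rw [mem_coe, mem_ibox0] at hv hv'
      funext i
      by_cases hi : i ∈ J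
      · have := congrFun hvv i
        simp only at this
        rwa [if_pos hi, if_pos hi] at this
      · have h4 : i ∈ univ \ J := by
          rw [mem_sdiff]
          exact ⟨mem_univ _, hi⟩
        rw [(hv i).2 h4, (hv' i).2 h4]
  have h3 : (S.image r).card ≤ (Q.image r).card := card_le_card (image_subset_image hS)
  have h4 : (S.card : ℝ) ≤ B * (Q.image r).card := by
    calc (S.card : ℝ) ≤ ((⌊B⌋₊ * (S.image r).card : ℕ) : ℝ) := by exact_mod_cast h1
      _ = (⌊B⌋₊ : ℝ) * (S.image r).card := by push_cast; rfl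
      _ ≤ B * (Q.image r).card := by
          have := Nat.floor_le hB0
          have h5 : ((S.image r).card : ℝ) ≤ (Q.image r).card := by exact_mod_cast h3
          gcongr
  have h5 : (2 * (H : ℝ) + 1) ^ J.card * (Q.image r).card ≤ Q.card := by exact_mod_cast h2
  calc (S.card : ℝ) * (2 * (H : ℝ) + 1) ^ J.card
      ≤ (B * (Q.image r).card) * (2 * (H : ℝ) + 1) ^ J.card := by gcongr
    _ = B * ((2 * (H : ℝ) + 1) ^ J.card * (Q.image r).card) := by ring
    _ ≤ B * Q.card := by gcongr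

end gen

section taylor

lemma TT_second {c : ℕ → ℕ → ℤ} {H : ℝ} (hc : ∀ k i, |(c k i : ℝ)| ≤ H) {d : ℕ} (hd : 1 ≤ d)
    {t h ρ : ℝ} (ht : |t| ≤ 2) (hh : |h| ≤ ρ) (hρ : ρ ≤ 1) :
    |TT c d 0 (t + h) - (TT c d 0 t + TT c d 1 t * h)| ≤ d * c1 d * H * ρ ^ 2 := by
  have hH : 0 ≤ H := (abs_nonneg _).trans (hc 0 0)
  have hρ0 : 0 ≤ ρ := (abs_nonneg _).trans hh
  have hc1 := c1_pos d
  obtain ⟨e, rfl⟩ : ∃ e, d = e + 1 := ⟨d - 1, by omega⟩
  rw [TT_taylor c (le_refl (e + 1)) t h, sum_range_succ', sum_range_succ']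
  simp only [pow_zero, mul_one, zero_add, pow_one]
  have : ∑ k ∈ range e, TT c (e + 1) (k + 1 + 1) t * h ^ (k + 1 + 1) + TT c (e + 1) 1 t * h +
      TT c (e + 1) 0 t - (TT c (e + 1) 0 t + TT c (e + 1) 1 t * h) =
      ∑ k ∈ range e, TT c (e + 1) (k + 1 + 1) t * h ^ (k + 1 + 1) := by ring
  rw [this]
  calc |∑ k ∈ range e, TT c (e + 1) (k + 1 + 1) t * h ^ (k + 1 + 1)|
      ≤ ∑ k ∈ range e, |TT c (e + 1) (k + 1 + 1) t * h ^ (k + 1 + 1)| := abs_sum_le_sum_abs _ _
    _ ≤ ∑ _k ∈ range e, (c1 (e + 1) * H) * ρ ^ 2 := by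
        apply sum_le_sum
        intro k _
        rw [abs_mul, abs_pow]
        have h5 := TT_le hc (le_refl (e + 1)) (k + 1 + 1) ht
        have h6 : |h| ^ (k + 1 + 1) ≤ ρ ^ 2 := by
          calc |h| ^ (k + 1 + 1) ≤ ρ ^ (k + 1 + 1) := by gcongr
            _ ≤ ρ ^ 2 := pow_le_pow_of_le_one hρ0 hρ (by omega)
        have h7 : 0 ≤ c1 (e + 1) * H := by positivity
        gcongr
    _ = e * ((c1 (e + 1) * H) * ρ ^ 2) := by rw [sum_const, card_range, nsmul_eq_mul]
    _ ≤ ((e + 1 : ℕ) : ℝ) * ((c1 (e + 1) * H) * ρ ^ 2) := by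
        gcongr
        omega
    _ = _ := by ring

end taylor

section GAcount

variable {d H : ℕ} {w : ℝ}

lemma GA_mono {c : ℕ → ℕ → ℤ} {H w w' : ℝ} (hH : 0 ≤ H) (hw : 0 < w) (hww : w ≤ w')
    (h : GA c d H w) : GA c d H w' := by
  intro t ht
  rcases h t ht with h1 | h1
  · left
    refine le_trans ?_ h1
    gcongr
  · right
    refine le_trans ?_ h1
    gcongr

lemma GA_fixed (hd : 1 ≤ d) (t : ℝ) {δ0 δ1 : ℝ} (hδ0 : 0 ≤ δ0) (hδ1 : 0 ≤ δ1) (S : Finset (Cf d))
    (hS : S ⊆ ibox ↥(I d) H) (h0 : ∀ a ∈ S, |TT (co a) d 0 t| ≤ δ0)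
    (h1 : ∀ a ∈ S, |TT (co a) d 1 t| ≤ δ1) :
    (S.card : ℝ) ≤ (2 * δ0 + 1) * ((2 * δ1 + 1) * (2 * (H : ℝ) + 1) ^ (MM d - 2)) := by
  classical
  let p0 : ↥(I d) := ip d d le_rfl
  let p1 : ↥(I d) := ⟨(d, 1), by rw [mem_I]; exact ⟨le_rfl, hd⟩⟩
  have hne : p1 ≠ p0 := by
    intro h
    have := congrArg (fun p : ↥(I d) => p.1.2) h
    exact one_ne_zero this
  have k1 := card_window (S := S) p0 (fun a => -TT (co (Function.update a p0 0)) d 0 t)
    (fun a n => by simp only [Function.update_idem]) hδ0 (by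
      intro a ha
      have h3 := TT_update a p0 t
      have h4 : TT (co a) d 0 t = a p0 + TT (co (Function.update a p0 0)) d 0 t := h3
      simp only [sub_neg_eq_add]
      rw [← h4]
      exact h0 a ha)
  have k2 := card_windows (H := H) hδ1
    [(p1, fun a => -TT (co (Function.update a p1 0)) d 1 t)] {p0}
    (S.image fun a => Function.update a p0 0) ?_ ?_ ?_ ?_
  · rw [card_singleton, List.length_singleton, pow_one] at k2
    have e : Fintype.card ↥(I d) - 1 - 1 = MM d - 2 := by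
      have : MM d = Fintype.card ↥(I d) := rfl
      omega
    rw [e] at k2
    refine k1.trans ?_
    gcongr
  · intro b hb
    rw [mem_image] at hb
    obtain ⟨a, ha, rfl⟩ := hb
    have h3 := mem_ibox.1 (hS ha)
    rw [mem_ibox0]
    intro i
    rcases eq_or_ne i p0 with rfl | hi
    · simp
    · rw [Function.update_of_ne hi]
      refine ⟨h3 i, fun h4 => ?_⟩
      rw [mem_singleton] at h4
      exact absurd h4 hi
  · simp
  · intro q hq
    rw [List.mem_singleton] at hq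
    subst hq
    refine ⟨by rw [mem_singleton]; exact hne, fun a n => ?_⟩
    simp only [Function.update_idem]
  · intro b hb q hq
    rw [List.mem_singleton] at hq
    subst hq
    rw [mem_image] at hb
    obtain ⟨a, ha, rfl⟩ := hb
    have h3 := TT_update (Function.update a p0 0) p1 t
    have h4 : TT (co (Function.update a p0 0)) d 1 t = (Function.update a p0 0) p1 +
      TT (co (Function.update (Function.update a p0 0) p1 0)) d 1 t := h3
    simp only [sub_neg_eq_add]
    rw [← h4, TT_update_ne a p0 0 (Or.inr one_pos)]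
    exact h1 a ha

/-- the constant of the first genericity condition -/
noncomputable def CA (d : ℕ) : ℝ := 5 * (5 + 2 * d * c1 d) * (3 + 2 * d * c1 d)

/-- **First genericity condition.** -/
theorem card_notGA (hd : 1 ≤ d) (hw : 1 ≤ w) (hwH : w ^ 2 ≤ H) (S : Finset (Cf d))
    (hS : S ⊆ ibox ↥(I d) H) (hG : ∀ a ∈ S, ¬ GA (co a) d H w) :
    (S.card : ℝ) ≤ CA d * (2 * (H : ℝ) + 1) ^ MM d / w ^ 2 := by
  have hc1 := c1_pos d
  have hw0 : 0 < w := by linarith
  have hww : w ≤ w ^ 2 := by nlinarith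
  have hH0 : (0 : ℝ) ≤ H := Nat.cast_nonneg H
  set δ0 : ℝ := (2 + d * c1 d) * (H / w ^ 2) with hδ0
  set δ1 : ℝ := (1 + d * c1 d) * (H / w) with hδ1
  have hδ00 : 0 ≤ δ0 := by positivity
  have hδ10 : 0 ≤ δ1 := by positivity
  have h1 := card_cover (S := S) (K := Icc (-⌊2 * w⌋) ⌊2 * w⌋)
    (fun k a => |TT (co a) d 0 ((k : ℝ) / w)| ≤ δ0 ∧ |TT (co a) d 1 ((k : ℝ) / w)| ≤ δ1)
    (B := (2 * δ0 + 1) * ((2 * δ1 + 1) * (2 * (H : ℝ) + 1) ^ (MM d - 2))) ?_ ?_
  · have h2 : ((Icc (-⌊2 * w⌋) ⌊2 * w⌋).card : ℝ) ≤ 5 * w :=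
      (card_grid (by positivity)).trans (by linarith)
    have e3 : 0 ≤ d * c1 d := by positivity
    have h3 : 2 * δ1 + 1 ≤ (3 + 2 * d * c1 d) * ((2 * (H : ℝ) + 1) / w) := by
      have e1 : 1 ≤ (H : ℝ) / w := by rw [le_div_iff₀ hw0]; linarith
      have e2 : (H : ℝ) / w ≤ (2 * (H : ℝ) + 1) / w := by gcongr; linarith
      calc 2 * δ1 + 1 ≤ 2 * ((1 + d * c1 d) * (H / w)) + H / w := by linarith
        _ = (3 + 2 * d * c1 d) * (H / w) := by ring
        _ ≤ _ := by gcongr
    have h3' : 2 * δ0 + 1 ≤ (5 + 2 * d * c1 d) * ((2 * (H : ℝ) + 1) / w ^ 2) := by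
      have e1 : 1 ≤ (H : ℝ) / w ^ 2 := by rw [le_div_iff₀ (by positivity)]; linarith
      have e2 : (H : ℝ) / w ^ 2 ≤ (2 * (H : ℝ) + 1) / w ^ 2 := by gcongr; linarith
      calc 2 * δ0 + 1 ≤ 2 * ((2 + d * c1 d) * (H / w ^ 2)) + H / w ^ 2 := by linarith
        _ = (5 + 2 * d * c1 d) * (H / w ^ 2) := by ring
        _ ≤ _ := by gcongr
    have h4 : (2 * (H : ℝ) + 1) ^ MM d = (2 * (H : ℝ) + 1) ^ 2 * (2 * (H : ℝ) + 1) ^ (MM d - 2) := by
      rw [← pow_add]
      congr 1
      have := MM_ge hd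
      omega
    refine h1.trans ?_
    calc ((Icc (-⌊2 * w⌋) ⌊2 * w⌋).card : ℝ) *
          ((2 * δ0 + 1) * ((2 * δ1 + 1) * (2 * (H : ℝ) + 1) ^ (MM d - 2)))
        ≤ (5 * w) * (((5 + 2 * d * c1 d) * ((2 * (H : ℝ) + 1) / w ^ 2)) *
          (((3 + 2 * d * c1 d) * ((2 * (H : ℝ) + 1) / w)) *
          (2 * (H : ℝ) + 1) ^ (MM d - 2))) := by gcongr
      _ = _ := by
        rw [h4]
        unfold CA
        field_simp
  · intro a ha
    have h2 := hG a ha
    unfold GA at h2
    push Not at h2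
    obtain ⟨t, ht, h3, h4⟩ := h2
    obtain ⟨k, hk, h5, h6⟩ := grid ht hw0
    refine ⟨k, hk, ?_, ?_⟩
    · have h5' : |(k : ℝ) / w - t| ≤ 1 / w := by rw [abs_sub_comm]; exact h5
      have h7 := TT_second (co_le' (hS ha)) hd ht h5' (by rw [div_le_one hw0]; exact hw)
      rw [add_sub_cancel] at h7
      have h8 : |TT (co a) d 0 ((k : ℝ) / w)| ≤ |TT (co a) d 0 ((k : ℝ) / w) -
          (TT (co a) d 0 t + TT (co a) d 1 t * ((k : ℝ) / w - t))| +
          (|TT (co a) d 0 t| + |TT (co a) d 1 t| * |(k : ℝ) / w - t|) := by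
        have e : TT (co a) d 0 ((k : ℝ) / w) = (TT (co a) d 0 ((k : ℝ) / w) -
          (TT (co a) d 0 t + TT (co a) d 1 t * ((k : ℝ) / w - t))) +
          (TT (co a) d 0 t + TT (co a) d 1 t * ((k : ℝ) / w - t)) := by ring
        calc |TT (co a) d 0 ((k : ℝ) / w)| = |(TT (co a) d 0 ((k : ℝ) / w) -
          (TT (co a) d 0 t + TT (co a) d 1 t * ((k : ℝ) / w - t))) +
          (TT (co a) d 0 t + TT (co a) d 1 t * ((k : ℝ) / w - t))| := by rw [← e]
          _ ≤ _ := by
            refine (abs_add_le _ _).trans ?_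
            gcongr
            refine (abs_add_le _ _).trans ?_
            rw [abs_mul]
      calc |TT (co a) d 0 ((k : ℝ) / w)| ≤ d * c1 d * H * (1 / w) ^ 2 +
            (H / w ^ 2 + H / w * (1 / w)) := by
            refine h8.trans ?_
            gcongr
        _ = δ0 := by rw [hδ0]; field_simp; ring
    · have h7 := TT_lip (co_le' (hS ha)) (le_refl d) 1 ht h6
      have h8 : |TT (co a) d 1 ((k : ℝ) / w)| ≤ |TT (co a) d 1 t| +
          |TT (co a) d 1 t - TT (co a) d 1 ((k : ℝ) / w)| := by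
        have := abs_sub (TT (co a) d 1 t) (TT (co a) d 1 t - TT (co a) d 1 ((k : ℝ) / w))
        simpa using this
      calc |TT (co a) d 1 ((k : ℝ) / w)| ≤ H / w + d * c1 d * H * (1 / w) := by
            refine h8.trans (add_le_add h4.le (h7.trans ?_))
            gcongr
        _ = δ1 := by rw [hδ1]; ring
  · intro k _ T hT hTk
    exact GA_fixed hd _ hδ00 hδ10 T (hT.trans hS) (fun a ha => (hTk a ha).1)
      (fun a ha => (hTk a ha).2)

/-- the first condition depends only on the leading form -/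
lemma GA_congr {c c' : ℕ → ℕ → ℤ} {H w : ℝ} (h : ∀ i, c d i = c' d i) (hG : GA c d H w) :
    GA c' d H w := by
  intro t ht
  have e : ∀ i, TT c' d i t = TT c d i t := by
    intro i
    unfold TT
    refine sum_congr rfl fun j _ => ?_
    rw [h j]
  rw [e, e]
  exact hG t ht

end GAcount

end Pool.Agent.R414.DS
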